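import Pool.Agent.Helper51.SH.Low
import Pool.Agent.Helper19.SH.ColC
import Pool.Agent.Helper19.SH.ColP
import Pool.Agent.Helper30.SH.ZFast

/-!
# Project RC, SHARP, cell engine: the row `e_0` as a certified polynomial

`E1 n = ee((n+1) π/3) conj(Rn (n+1) 1)`, `E2 n = ee((n+1) 2π/3) conj(Rn (n+1) 1)` from the tables of `e^{-imD_j}`.
`zE b s h Q N f l ps` (`f = 1, 2`): the polynomial; `okE12`: its check; `E1_CA`, `E2_CA`: the digits.
-/

set_option autoImplicit false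

open MeasureTheory Set Filter Topology

namespace Pool.Agent.Helper51.SH

open Helper49.LT (ee ee_zero ee_neg ee_add norm_ee continuous_ee)
open Helper95.SH
open Helper49.RC (om)
open Helper87.RC (BM fc_eq fc_cmul fc_add fc_sub fc_conj)
open Helper56.RC (fc)
open Helper54.RC.Fast Helper76.RC.TrD
open Helper76.RC.TPoly (lst)
open Helper30.SH (okh okh_sound hf hf_eq om_c om2_c)
open Pool.Agent.Helper19.SH (rd CA_rd CA_frac)
open Pool.Agent.Helper64.SH (CA ci dR dI CA_fc fc_le)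

/-! ### the mode `0` -/

theorem fc_Th' (Q : ℕ) (hQ : 0 < Q) (l : List (ℤ × ℤ)) :
    ((2 * (Q : ℤ) : ℤ) : ℂ) * (starRingEnd ℂ) (fc (fun x => (Th' Q l x : ℂ)) 1) =
      ci (-(l.getD 0 (0, 0)).2) (l.getD 0 (0, 0)).1 := by
  have hQc : (Q : ℂ) ≠ 0 := by exact_mod_cast hQ.ne'
  obtain ⟨C, hC⟩ := bm_DA 1 (der 1 l)
  have b1 : BM (fun _ : ℝ => (1 : ℂ)) 1 := ⟨measurable_const, fun t => by simp⟩
  have e1 : (fun x => (Th' Q l x : ℂ)) = fun x => (1 : ℂ) - (1 / (Q : ℂ)) * (DA 1 (der 1 l) x : ℂ) := by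
    funext x
    unfold Th' Dt
    push_cast
    ring
  have e3 : fc (fun _ : ℝ => (1 : ℂ)) (1 : ℤ) = 0 := by
    have h := Helper95.RC.fc_ee 0 (1 : ℤ)
    have h2 : (fun t : ℝ => ee (((0 : ℤ) : ℝ) * t)) = fun _ => (1 : ℂ) := by
      funext t
      rw [Int.cast_zero, zero_mul, ee_zero]
    rw [h2, if_neg (by omega)] at h
    exact h
  have e4 := fc_DA 1 (der 1 l) le_rfl 1 le_rfl
  rw [if_neg (by omega), getD_der] at e4
  have e5 : ((1 : ℕ) : ℤ) = 1 := rfl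
  rw [e5] at e4
  rw [e1, fc_sub b1 (hC.cmul _), fc_cmul, e3, e4]
  set c := (l.getD (1 - 1) (0, 0)).1 with hc
  set s := (l.getD (1 - 1) (0, 0)).2 with hs
  unfold ci
  simp only [map_sub, map_mul, map_div₀, map_one, map_zero, Complex.conj_I, map_natCast, map_intCast, map_ofNat]
  push_cast
  field_simp
  ring

/-! ### the sixth roots of unity -/

/-- `2^s ee (r π/3)`, real part -/
def c6R (s r : ℕ) : ℤ :=
  match Nat.mod r 6 with
  | 0 => Int.ofNat (Nat.pow 2 s)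
  | 1 => Int.ofNat (hf s)
  | 2 => Int.neg (Int.ofNat (hf s))
  | 3 => Int.neg (Int.ofNat (Nat.pow 2 s))
  | 4 => Int.neg (Int.ofNat (hf s))
  | _ => Int.ofNat (hf s)
/-- imaginary part -/
def c6T (h r : ℕ) : ℤ :=
  match Nat.mod r 6 with
  | 0 => 0
  | 1 => Int.ofNat h
  | 2 => Int.ofNat h
  | 3 => 0
  | 4 => Int.neg (Int.ofNat h)
  | _ => Int.neg (Int.ofNat h)

theorem om3 : om ^ 3 = -1 := by
  have h : om ^ 3 = om * om ^ 2 := by ring
  have hs : (Real.sqrt 3 : ℂ) ^ 2 = 3 := by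
    rw [← Complex.ofReal_pow, Real.sq_sqrt (by norm_num)]; norm_num
  rw [h, om2_c, om_c]
  push_cast
  linear_combination (1 / 4 : ℂ) * Complex.I ^ 2 * hs + (3 / 4 : ℂ) * Complex.I_sq

theorem om6 (r : ℕ) : om ^ r = om ^ (r % 6) := by
  have h : om ^ 6 = 1 := by
    have : om ^ 6 = (om ^ 3) ^ 2 := by ring
    rw [this, om3]; norm_num
  conv_lhs => rw [← Nat.div_add_mod r 6]
  rw [pow_add, pow_mul, h, one_pow, one_mul]

theorem CA_base {b s h : ℕ} (hh : okh b s h = true) :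
    CA (2 ^ s) om (hf s : ℤ) h 1 ∧ CA (2 ^ s) (om ^ 2) (-(hf s : ℤ)) h 1 := by
  obtain ⟨h1, h2, -, -⟩ := okh_sound hh
  have h3 := hf_eq h1
  have e : ∀ x : ℝ, ‖Complex.I * ((2 ^ s * (Real.sqrt 3 / 2) - x : ℝ) : ℂ)‖ = |x - 2 ^ s * (Real.sqrt 3 / 2)| := by
    intro x
    rw [norm_mul, Complex.norm_I, one_mul, Complex.norm_real, Real.norm_eq_abs, abs_sub_comm]
  constructor
  · unfold CA ci
    have e1 : (((2 : ℝ) ^ s : ℝ) : ℂ) * om - ((((hf s : ℤ)) : ℂ) + Complex.I * (((h : ℤ)) : ℂ)) =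
        Complex.I * ((2 ^ s * (Real.sqrt 3 / 2) - h : ℝ) : ℂ) := by
      have h4 : (((hf s : ℤ)) : ℂ) = ((2 ^ s * (1 / 2) : ℝ) : ℂ) := by
        rw [← h3]; push_cast; rfl
      rw [om_c, h4]
      push_cast
      ring
    rw [e1, e]
    exact h2
  · unfold CA ci
    have e1 : (((2 : ℝ) ^ s : ℝ) : ℂ) * om ^ 2 - (((-(hf s : ℤ) : ℤ) : ℂ) + Complex.I * (((h : ℤ)) : ℂ)) =
        Complex.I * ((2 ^ s * (Real.sqrt 3 / 2) - h : ℝ) : ℂ) := by
      have h4 : ((-(hf s : ℤ) : ℤ) : ℂ) = -((2 ^ s * (1 / 2) : ℝ) : ℂ) := by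
        rw [← h3]; push_cast; rfl
      rw [om2_c, h4]
      push_cast
      ring
    rw [e1, e]
    exact h2

theorem CA_neg {q e : ℝ} {z : ℂ} {a b : ℤ} (h : CA q z a b e) : CA q (-z) (-a) (-b) e := by
  have := h.smul (-1)
  simpa using this

/-- the table of the sixth roots -/
theorem CA_c6 {b s h : ℕ} (hh : okh b s h = true) (r : ℕ) : CA (2 ^ s) (om ^ r) (c6R s r) (c6T h r) 1 := by
  obtain ⟨h1, h2⟩ := CA_base hh
  have h0 : CA (2 ^ s) 1 ((2 ^ s : ℕ) : ℤ) 0 1 := by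
    unfold CA ci
    push_cast
    rw [mul_one, mul_zero, add_zero, sub_self, norm_zero]
    norm_num
  have hr : r % 6 < 6 := Nat.mod_lt _ (by norm_num)
  rw [om6]
  unfold c6R c6T
  have e0 : Nat.mod r 6 = r % 6 := rfl
  rw [e0]
  interval_cases h3 : r % 6
  · simpa using h0
  · simpa using h1
  · exact h2
  · have e : om ^ 3 = -1 := om3
    rw [e]
    have h4 := CA_neg h0
    rw [neg_zero] at h4
    exact h4
  · have e : om ^ 4 = -om := by
      have : om ^ 4 = om ^ 3 * om := by ring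
      rw [this, om3]; ring
    rw [e]
    exact CA_neg h1
  · have e : om ^ 5 = -om ^ 2 := by
      have : om ^ 5 = om ^ 3 * om ^ 2 := by ring
      rw [this, om3]; ring
    rw [e]
    have := CA_neg h2
    rw [neg_neg] at this
    exact this

/-! ### the product and the division by the mode -/

theorem prod_err {s : ℕ} {C W : ℂ} {A B x y : ℤ} {e : ℝ} (hC : ‖C‖ = 1) (hW : ‖W‖ ≤ 1) (h1 : CA (2 ^ s) C A B 1)
    (h2 : CA (2 ^ s) W x y e) (he : e ≤ 2 ^ s) :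
    CA (2 ^ s * 2 ^ s) (C * W) (A * x - B * y) (A * y + B * x) (2 ^ s * e + 2 * 2 ^ s) := by
  unfold CA at *
  have hs : (0 : ℝ) < 2 ^ s := by positivity
  have e1 : ((((2 : ℝ) ^ s * 2 ^ s : ℝ)) : ℂ) * (C * W) - ci (A * x - B * y) (A * y + B * x) =
      (((2 : ℝ) ^ s : ℝ) : ℂ) * C * ((((2 : ℝ) ^ s : ℝ) : ℂ) * W - ci x y)
        + ((((2 : ℝ) ^ s : ℝ) : ℂ) * C - ci A B) * ci x y := by
    unfold ci
    push_cast
    linear_combination ((B : ℂ) * y) * Complex.I_sq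
  have n1 : ‖(((2 : ℝ) ^ s : ℝ) : ℂ) * C‖ = 2 ^ s := by
    rw [norm_mul, hC, mul_one, Complex.norm_real, Real.norm_eq_abs, abs_of_pos hs]
  have n2 : ‖ci x y‖ ≤ 2 ^ s + e := by
    have e2 : ci x y = (((2 : ℝ) ^ s : ℝ) : ℂ) * W - ((((2 : ℝ) ^ s : ℝ) : ℂ) * W - ci x y) := by ring
    rw [e2]
    refine (norm_sub_le _ _).trans (add_le_add ?_ h2)
    rw [norm_mul, Complex.norm_real, Real.norm_eq_abs, abs_of_pos hs]
    nlinarith [norm_nonneg W]
  rw [e1]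
  refine (norm_add_le _ _).trans ?_
  rw [norm_mul, n1, norm_mul]
  have a1 := mul_le_mul_of_nonneg_left h2 hs.le
  have a2 : ‖(((2 : ℝ) ^ s : ℝ) : ℂ) * C - ci A B‖ * ‖ci x y‖ ≤ 1 * (2 ^ s + e) :=
    mul_le_mul h1 n2 (norm_nonneg _) (by norm_num)
  linarith

theorem div_err {s j er : ℕ} (hj : 1 ≤ j) {C W : ℂ} {A B x y : ℤ} (hC : ‖C‖ = 1) (hW : ‖W‖ ≤ 1)
    (h1 : CA (2 ^ s) C A B 1) (h2 : CA (2 ^ s) W x y er) (he : er ≤ 2 ^ s) :
    CA (2 ^ s) (C * W / j) (rd 1 ((2 ^ s * j : ℕ) : ℤ) (A * x - B * y)) (rd 1 ((2 ^ s * j : ℕ) : ℤ) (A * y + B * x))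
      ((er / j + 5 : ℕ) : ℝ) := by
  have hs : (0 : ℝ) < 2 ^ s := by positivity
  have hjr : (0 : ℝ) < j := by exact_mod_cast hj
  have he' : (er : ℝ) ≤ 2 ^ s := by exact_mod_cast he
  have h3 := prod_err hC hW h1 h2 he'
  have hD : (0 : ℤ) < ((2 ^ s * j : ℕ) : ℤ) := by
    have : 0 < 2 ^ s * j := Nat.mul_pos (by positivity) hj
    exact_mod_cast this
  have h4 := CA_rd h3 1 hD
  have e1 : (((1 : ℕ) : ℝ) / (((2 ^ s * j : ℕ) : ℤ) : ℝ) * (2 ^ s * 2 ^ s) : ℝ) = 2 ^ s / j := by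
    push_cast
    field_simp
  have e2 : (((1 : ℕ) : ℝ) / (((2 ^ s * j : ℕ) : ℤ) : ℝ) * (2 ^ s * er + 2 * 2 ^ s) + 2 : ℝ) = (er + 2) / j + 2 := by
    push_cast
    field_simp
  rw [e1, e2] at h4
  have h5 : CA (2 ^ s) (C * W / j) (rd (1 : ℕ) ((2 ^ s * j : ℕ) : ℤ) (A * x - B * y))
      (rd (1 : ℕ) ((2 ^ s * j : ℕ) : ℤ) (A * y + B * x)) ((er + 2) / j + 2) := by
    unfold CA at *
    have e3 : (((2 : ℝ) ^ s : ℝ) : ℂ) * (C * W / j) = (((2 : ℝ) ^ s / j : ℝ) : ℂ) * (C * W) := by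
      push_cast
      ring
    rw [e3]
    exact h4
  refine h5.mono ?_
  have h6 : ((er / j : ℕ) : ℝ) ≥ (er : ℝ) / j - 1 := by
    have h7 : er < (er / j + 1) * j := by
      have := Nat.div_add_mod er j
      have := Nat.mod_lt er hj
      nlinarith
    have h8 : (er : ℝ) < ((er / j : ℕ) + 1) * j := by exact_mod_cast h7
    have h9 : (er : ℝ) / j < (er / j : ℕ) + 1 := by rwa [div_lt_iff₀ hjr]
    linarith
  have h7 : (2 : ℝ) / j ≤ 2 := by
    rw [div_le_iff₀ hjr]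
    have : (1 : ℝ) ≤ j := by exact_mod_cast hj
    linarith
  rw [add_div]
  push_cast
  linarith

/-! ### the entries -/

/-- the entry of the mode `j ≥ 1` -/
def pR (b s h f j : ℕ) (p : PF) : ℤ :=
  rd 1 (Int.ofNat (Nat.mul (Nat.pow 2 s) j)) (Int.add (Int.mul (c6R s (Nat.mul f j)) (dR b p.z (Int.sub 1 (Int.ofNat j))))
    (Int.mul (c6T h (Nat.mul f j)) (dI b p.z (Int.sub 1 (Int.ofNat j)))))
def pT (b s h f j : ℕ) (p : PF) : ℤ :=
  rd 1 (Int.ofNat (Nat.mul (Nat.pow 2 s) j)) (Int.sub (Int.mul (c6T h (Nat.mul f j)) (dR b p.z (Int.sub 1 (Int.ofNat j))))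
    (Int.mul (c6R s (Nat.mul f j)) (dI b p.z (Int.sub 1 (Int.ofNat j)))))
/-- the entry of the mode `-j`, `j ≥ 1` -/
def nR (b s h f j : ℕ) (p : PF) : ℤ :=
  rd 1 (Int.ofNat (Nat.mul (Nat.pow 2 s) j)) (Int.neg (Int.add
    (Int.mul (c6R s (Nat.mul f j)) (dR b p.z (Int.sub (Int.neg 1) (Int.ofNat j))))
    (Int.mul (c6T h (Nat.mul f j)) (dI b p.z (Int.sub (Int.neg 1) (Int.ofNat j))))))
def nT (b s h f j : ℕ) (p : PF) : ℤ :=
  rd 1 (Int.ofNat (Nat.mul (Nat.pow 2 s) j)) (Int.sub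
    (Int.mul (c6T h (Nat.mul f j)) (dR b p.z (Int.sub (Int.neg 1) (Int.ofNat j))))
    (Int.mul (c6R s (Nat.mul f j)) (dI b p.z (Int.sub (Int.neg 1) (Int.ofNat j)))))

/-- the exact value of the mode `m` -/
noncomputable def EV (Q f : ℕ) (l : List (ℤ × ℤ)) (m : ℤ) : ℂ :=
  ee ((m : ℝ) * ((f : ℝ) * (Real.pi / 3))) * (starRingEnd ℂ) (Rn (Th Q l) (Th' Q l) m 1)

theorem ee_om (r : ℕ) : ee ((r : ℝ) * (Real.pi / 3)) = om ^ r := by
  have := ee_pow (Real.pi / 3) r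
  rw [← this]
  rfl

theorem norm_om (r : ℕ) : ‖om ^ r‖ = 1 := by
  rw [← ee_om, norm_ee]

theorem EV_pos (Q f : ℕ) (l : List (ℤ × ℤ)) {j : ℕ} (hj : 1 ≤ j) : EV Q f l j =
    om ^ (f * j) * (starRingEnd ℂ) (fc (fun x => ee (-((j : ℝ) * Dt Q l x))) (1 - j)) / j := by
  unfold EV Rn
  have h0 : ((j : ℕ) : ℤ) ≠ 0 := by omega
  have e1 : En (Th Q l) j 1 = fc (fun x => ee (-((((j : ℤ)) : ℝ) * Dt Q l x))) (1 - (j : ℤ)) := En_D (Dt Q l) j 1
  rw [if_neg h0, e1, ← ee_om, map_div₀]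
  have e2 : (((j : ℕ) : ℤ) : ℝ) * ((f : ℝ) * (Real.pi / 3)) = ((f * j : ℕ) : ℝ) * (Real.pi / 3) := by push_cast; ring
  rw [e2]
  have e3 : (starRingEnd ℂ) (((j : ℕ) : ℤ) : ℂ) = (j : ℂ) := by
    rw [map_intCast]; push_cast; rfl
  rw [e3]
  push_cast
  ring

theorem EV_neg (Q f : ℕ) (l : List (ℤ × ℤ)) {j : ℕ} (hj : 1 ≤ j) : EV Q f l (-j) =
    (-(starRingEnd ℂ) (om ^ (f * j))) * fc (fun x => ee (-((j : ℝ) * Dt Q l x))) (-1 - j) / j := by
  unfold EV
  have h0 : ((j : ℕ) : ℤ) ≠ 0 := by omega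
  have e1 : En (Th Q l) j (-1) = fc (fun x => ee (-((((j : ℤ)) : ℝ) * Dt Q l x))) (-1 - (j : ℤ)) := En_D (Dt Q l) j (-1)
  rw [Rn_neg, map_neg, Complex.conj_conj]
  unfold Rn
  rw [if_neg h0, e1, ← ee_om, ← ee_neg]
  have e2 : (((-((j : ℕ) : ℤ)) : ℤ) : ℝ) * ((f : ℝ) * (Real.pi / 3)) = -(((f * j : ℕ) : ℝ) * (Real.pi / 3)) := by
    push_cast; ring
  rw [e2]
  push_cast
  ring

theorem tab_bm (Q : ℕ) (l : List (ℤ × ℤ)) (j : ℕ) : BM (fun x => ee (-((j : ℝ) * Dt Q l x))) 1 := by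
  have := bm_tab Q l j
  simpa using this

theorem pos_CA {b s h Q f j : ℕ} {l : List (ℤ × ℤ)} (hh : okh b s h = true) (hj : 1 ≤ j) {p : PF}
    (hp : AP b s p (fun x => ee (-((j : ℝ) * Dt Q l x)))) (he : p.er ≤ 2 ^ s) :
    CA (2 ^ s) (EV Q f l j) (pR b s h f j p) (pT b s h f j p) ((p.er / j + 5 : ℕ) : ℝ) := by
  have h1 := CA_c6 hh (f * j)
  have h2 := (CA_fc (tab_bm Q l j) hp (1 - (j : ℤ))).conj
  have h3 : ‖(starRingEnd ℂ) (fc (fun x => ee (-((j : ℝ) * Dt Q l x))) (1 - (j : ℤ)))‖ ≤ 1 := by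
    rw [Complex.norm_conj]
    exact fc_le (tab_bm Q l j) _
  have h4 := div_err hj (norm_om (f * j)) h3 h1 h2 he
  rw [← EV_pos Q f l hj] at h4
  have e1 : pR b s h f j p = rd 1 ((2 ^ s * j : ℕ) : ℤ) (c6R s (f * j) * dR b p.z (1 - (j : ℤ))
      - c6T h (f * j) * -dI b p.z (1 - (j : ℤ))) := by
    have : c6R s (f * j) * dR b p.z (1 - (j : ℤ)) - c6T h (f * j) * -dI b p.z (1 - (j : ℤ)) =
      c6R s (f * j) * dR b p.z (1 - (j : ℤ)) + c6T h (f * j) * dI b p.z (1 - (j : ℤ)) := by ring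
    rw [this]
    rfl
  have e2 : pT b s h f j p = rd 1 ((2 ^ s * j : ℕ) : ℤ) (c6R s (f * j) * -dI b p.z (1 - (j : ℤ))
      + c6T h (f * j) * dR b p.z (1 - (j : ℤ))) := by
    have : c6R s (f * j) * -dI b p.z (1 - (j : ℤ)) + c6T h (f * j) * dR b p.z (1 - (j : ℤ)) =
      c6T h (f * j) * dR b p.z (1 - (j : ℤ)) - c6R s (f * j) * dI b p.z (1 - (j : ℤ)) := by ring
    rw [this]
    rfl
  rw [e1, e2]
  exact h4

theorem neg_CA {b s h Q f j : ℕ} {l : List (ℤ × ℤ)} (hh : okh b s h = true) (hj : 1 ≤ j) {p : PF}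
    (hp : AP b s p (fun x => ee (-((j : ℝ) * Dt Q l x)))) (he : p.er ≤ 2 ^ s) :
    CA (2 ^ s) (EV Q f l (-j)) (nR b s h f j p) (nT b s h f j p) ((p.er / j + 5 : ℕ) : ℝ) := by
  have h1 := CA_neg (CA_c6 hh (f * j)).conj
  have h2 := CA_fc (tab_bm Q l j) hp (-1 - (j : ℤ))
  have h3 := fc_le (tab_bm Q l j) (-1 - (j : ℤ))
  have hn : ‖-(starRingEnd ℂ) (om ^ (f * j))‖ = 1 := by
    rw [norm_neg, Complex.norm_conj, norm_om]
  have h4 := div_err hj hn h3 h1 h2 he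
  rw [← EV_neg Q f l hj] at h4
  have e1 : nR b s h f j p = rd 1 ((2 ^ s * j : ℕ) : ℤ) (-c6R s (f * j) * dR b p.z (-1 - (j : ℤ))
      - -(-c6T h (f * j)) * dI b p.z (-1 - (j : ℤ))) := by
    have : -c6R s (f * j) * dR b p.z (-1 - (j : ℤ)) - -(-c6T h (f * j)) * dI b p.z (-1 - (j : ℤ)) =
      -(c6R s (f * j) * dR b p.z (-1 - (j : ℤ)) + c6T h (f * j) * dI b p.z (-1 - (j : ℤ))) := by ring
    rw [this]
    rfl
  have e2 : nT b s h f j p = rd 1 ((2 ^ s * j : ℕ) : ℤ) (-c6R s (f * j) * dI b p.z (-1 - (j : ℤ))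
      + -(-c6T h (f * j)) * dR b p.z (-1 - (j : ℤ))) := by
    have : -c6R s (f * j) * dI b p.z (-1 - (j : ℤ)) + -(-c6T h (f * j)) * dR b p.z (-1 - (j : ℤ)) =
      c6T h (f * j) * dR b p.z (-1 - (j : ℤ)) - c6R s (f * j) * dI b p.z (-1 - (j : ℤ)) := by ring
    rw [this]
    rfl
  rw [e1, e2]
  exact h4

theorem zero_CA {s Q f : ℕ} (hQ : 0 < Q) (l : List (ℤ × ℤ)) :
    CA (2 ^ s) (EV Q f l 0) (rd ((2 ^ s : ℕ) : ℤ) (2 * (Q : ℤ)) (-(l.getD 0 (0, 0)).2))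
      (rd ((2 ^ s : ℕ) : ℤ) (2 * (Q : ℤ)) (l.getD 0 (0, 0)).1) 2 := by
  have hD : (0 : ℤ) < 2 * (Q : ℤ) := by omega
  have h := CA_frac hD (fc_Th' Q hQ l) (2 ^ s)
  have e : EV Q f l 0 = (starRingEnd ℂ) (fc (fun x => (Th' Q l x : ℂ)) 1) := by
    unfold EV Rn
    rw [if_pos rfl, Int.cast_zero, zero_mul, ee_zero, one_mul, Int.cast_one, div_one]
  rw [e]
  have e2 : (((2 ^ s : ℕ)) : ℝ) = 2 ^ s := by push_cast; rfl
  rw [e2] at h
  exact h

/-! ### the polynomial -/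

/-- entry number `i`: the mode `i - N + 1`, real part -/
def enR (b s h Q f N : ℕ) (l : List (ℤ × ℤ)) (ps : List PF) (i : ℕ) : ℤ :=
  bif Nat.ble N i then pR b s h f (Nat.sub (Nat.succ i) N) (ps.getD (Nat.sub i N) ⟨⟨0, 0, 0⟩, 0⟩)
  else bif Nat.beq (Nat.succ i) N then
    rd (Int.ofNat (Nat.pow 2 s)) (Int.mul 2 (Int.ofNat Q)) (Int.neg (l.getD 0 (0, 0)).2)
  else nR b s h f (Nat.sub N (Nat.succ i)) (ps.getD (Nat.sub N (Nat.succ (Nat.succ i))) ⟨⟨0, 0, 0⟩, 0⟩)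
/-- imaginary part -/
def enT (b s h Q f N : ℕ) (l : List (ℤ × ℤ)) (ps : List PF) (i : ℕ) : ℤ :=
  bif Nat.ble N i then pT b s h f (Nat.sub (Nat.succ i) N) (ps.getD (Nat.sub i N) ⟨⟨0, 0, 0⟩, 0⟩)
  else bif Nat.beq (Nat.succ i) N then
    rd (Int.ofNat (Nat.pow 2 s)) (Int.mul 2 (Int.ofNat Q)) (l.getD 0 (0, 0)).1
  else nT b s h f (Nat.sub N (Nat.succ i)) (ps.getD (Nat.sub N (Nat.succ (Nat.succ i))) ⟨⟨0, 0, 0⟩, 0⟩)

/-- the lists of the entries -/
def lR (b s h Q f N : ℕ) (l : List (ℤ × ℤ)) (ps : List PF) : List ℤ :=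
  (List.range (len N)).map (enR b s h Q f N l ps)
def lT (b s h Q f N : ℕ) (l : List (ℤ × ℤ)) (ps : List PF) : List ℤ :=
  (List.range (len N)).map (enT b s h Q f N l ps)

/-- **THE POLYNOMIAL** (`f = 1`: `E1`, `f = 2`: `E2`), window `N` -/
def zE (b s h Q N f : ℕ) (l : List (ℤ × ℤ)) (ps : List PF) : FP :=
  ofL b N (lR b s h Q f N l ps) (lT b s h Q f N l ps)

/-- the check of the errors of the first `n` tables, `j` is the mode of the first one -/
def okEr (s e : ℕ) : ℕ → ℕ → List PF → Bool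
  | 0, _, _ => true
  | _ + 1, _, [] => false
  | n + 1, j, p :: ps =>
    bif Nat.ble p.er (Nat.pow 2 s) then
      bif Nat.ble (Nat.add (Nat.div p.er j) 5) e then okEr s e n (Nat.succ j) ps else false
    else false

/-- data for `okEr` (no proof needed): the smallest `e` for the first `n` tables -/
def minEr : ℕ → ℕ → List PF → ℕ
  | 0, _, _ => 5
  | _ + 1, _, [] => 5
  | n + 1, j, p :: ps => max (p.er / j + 5) (minEr n (j + 1) ps)

/-- **THE CHECK** -/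
def okE12 (b s h Q N f e : ℕ) (l : List (ℤ × ℤ)) (ps : List PF) : Bool :=
  bif okh b s h then
    bif Nat.ble 1 Q then
      bif okEr s e (Nat.succ N) 1 ps then
        bif rng b (lR b s h Q f N l ps) then rng b (lT b s h Q f N l ps) else false
      else false
    else false
  else false

theorem okEr_get {s e : ℕ} (n : ℕ) (j : ℕ) (ps : List PF) (h : okEr s e n j ps = true) (i : ℕ) (hi : i < n) :
    ∃ p, ps[i]? = some p ∧ p.er ≤ 2 ^ s ∧ p.er / (j + i) + 5 ≤ e := by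
  induction n generalizing j ps i with
  | zero => omega
  | succ n ih =>
    cases ps with
    | nil => simp [okEr] at h
    | cons p ps =>
      unfold okEr at h
      simp only [Bool.cond_eq_ite, Bool.ite_eq_true_distrib, Bool.false_eq_true, if_false_right] at h
      obtain ⟨h1, h2, h3⟩ := h
      cases i with
      | zero => exact ⟨p, rfl, Nat.le_of_ble_eq_true h1, Nat.le_of_ble_eq_true h2⟩
      | succ i =>
        obtain ⟨q, q1, q2, q3⟩ := ih (j + 1) ps h3 i (by omega)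
        refine ⟨q, by simpa using q1, q2, ?_⟩
        have e1 : j + (i + 1) = j + 1 + i := by ring
        rw [e1]
        exact q3

theorem getD_ls (b n X i : ℕ) (hi : i < n) : (ls b n X).getD i 0 = (dg b i X : ℤ) - 2 ^ b := by
  induction n generalizing X i with
  | zero => omega
  | succ n ih =>
    cases i with
    | zero =>
      show (((X % 2 ^ (b + 1) : ℕ) : ℤ) - ((2 ^ b : ℕ) : ℤ)) = _
      rw [Pool.Agent.Helper19.SH.dg_zero]
      push_cast
      rfl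
    | succ i =>
      have h := ih (X / 2 ^ (b + 1)) i (by omega)
      rw [Pool.Agent.Helper19.SH.dg_succ, ← h]
      rfl

theorem dR_ofL {b N : ℕ} {re im : List ℤ} (h1 : re.length = len N) (h3 : rng b re = true) {k : ℤ}
    (hk : -(N : ℤ) ≤ k ∧ k ≤ N) : dR b (ofL b N re im) k = re.getD (k + N).toNat 0 := by
  obtain ⟨k1, -⟩ := encL_sound b re h3
  unfold dR
  have e : (ofL b N re im).N = N := rfl
  rw [e, if_pos hk]
  have h4 := getD_ls b re.length (encL b re) (k + N).toNat (by rw [h1, len_eq]; omega)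
  rw [k1] at h4
  exact h4.symm

theorem dI_ofL {b N : ℕ} {re im : List ℤ} (h1 : im.length = len N) (h3 : rng b im = true) {k : ℤ}
    (hk : -(N : ℤ) ≤ k ∧ k ≤ N) : dI b (ofL b N re im) k = im.getD (k + N).toNat 0 := by
  obtain ⟨k1, -⟩ := encL_sound b im h3
  unfold dI
  have e : (ofL b N re im).N = N := rfl
  rw [e, if_pos hk]
  have h4 := getD_ls b im.length (encL b im) (k + N).toNat (by rw [h1, len_eq]; omega)
  rw [k1] at h4
  exact h4.symm

theorem getD_map_range (n i : ℕ) (hi : i < n) (F : ℕ → ℤ) : ((List.range n).map F).getD i 0 = F i := by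
  rw [List.getD_eq_getElem?_getD, List.getElem?_map, List.getElem?_range hi]
  rfl

/-- **the digits** -/
theorem EV_CA {b s h Q N f e : ℕ} {l : List (ℤ × ℤ)} {ps : List PF} (hps : Tab b s Q l ps)
    (hc : okE12 b s h Q N f e l ps = true) : wf b (zE b s h Q N f l ps) = true ∧ (zE b s h Q N f l ps).N = N ∧
    ∀ k : ℤ, |k| ≤ N → CA (2 ^ s) (EV Q f l (k + 1)) (dR b (zE b s h Q N f l ps) k) (dI b (zE b s h Q N f l ps) k) e := by
  unfold okE12 at hc
  simp only [Bool.cond_eq_ite, Bool.ite_eq_true_distrib, Bool.false_eq_true, if_false_right] at hc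
  obtain ⟨hh, hQ, he, r1, r2⟩ := hc
  have hQ : 0 < Q := Nat.le_of_ble_eq_true hQ
  have l1 : (lR b s h Q f N l ps).length = len N := by unfold lR; simp
  have l2 : (lT b s h Q f N l ps).length = len N := by unfold lT; simp
  obtain ⟨w, -⟩ := ofL_sound b N _ _ l1 l2 r1 r2
  refine ⟨w, rfl, fun k hk => ?_⟩
  have hk := abs_le.1 hk
  have a1 : dR b (zE b s h Q N f l ps) k = enR b s h Q f N l ps (k + N).toNat := by
    unfold zE
    rw [dR_ofL l1 r1 hk]
    unfold lR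
    exact getD_map_range _ _ (by rw [len_eq]; omega) _
  have a2 : dI b (zE b s h Q N f l ps) k = enT b s h Q f N l ps (k + N).toNat := by
    unfold zE
    rw [dI_ofL l2 r2 hk]
    unfold lT
    exact getD_map_range _ _ (by rw [len_eq]; omega) _
  rw [a1, a2]
  set i := (k + N).toNat with hi
  have hiN : (i : ℤ) = k + N := by omega
  unfold enR enT
  rcases lt_trichotomy (k + 1) 0 with h0 | h0 | h0
  · -- a negative mode
    have b1 : Nat.ble N i = false := by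
      cases h1 : Nat.ble N i with
      | false => rfl
      | true =>
        have : N ≤ i := Nat.le_of_ble_eq_true h1
        omega
    have b2 : Nat.beq (Nat.succ i) N = false := by
      cases h1 : Nat.beq (Nat.succ i) N with
      | false => rfl
      | true =>
        have : i + 1 = N := Nat.eq_of_beq_eq_true h1
        omega
    rw [b1, b2, cond_false, cond_false, cond_false, cond_false]
    have e1 : Nat.sub N (Nat.succ i) = N - (i + 1) := rfl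
    have e2 : Nat.sub N (Nat.succ (Nat.succ i)) = N - (i + 2) := rfl
    rw [e1, e2]
    obtain ⟨j, hj⟩ : ∃ j, N - (i + 1) = j + 1 := ⟨N - (i + 1) - 1, by omega⟩
    have e3 : N - (i + 2) = j := by omega
    have e4 : k + 1 = -((j + 1 : ℕ) : ℤ) := by omega
    rw [hj, e3, e4]
    obtain ⟨p, p1, p2, p3⟩ := okEr_get _ _ _ he j (by omega)
    have p4 := hps j p p1
    have e5 : 1 + j = j + 1 := by ring
    rw [e5] at p3 p4
    have e6 : ps.getD j ⟨⟨0, 0, 0⟩, 0⟩ = p := by rw [List.getD_eq_getElem?_getD, p1]; rfl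
    rw [e6]
    exact (neg_CA hh (by omega) p4 p2).mono (by exact_mod_cast p3)
  · -- the mode 0
    have b1 : Nat.ble N i = false := by
      cases h1 : Nat.ble N i with
      | false => rfl
      | true =>
        have : N ≤ i := Nat.le_of_ble_eq_true h1
        omega
    have b2 : Nat.beq (Nat.succ i) N = true := by
      have : i + 1 = N := by omega
      rw [← this]
      exact Nat.beq_refl _
    rw [b1, b2, cond_false, cond_true, cond_false, cond_true, h0]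
    obtain ⟨p, p1, p2, p3⟩ := okEr_get _ _ _ he 0 (by omega)
    have h5 : (2 : ℝ) ≤ e := by
      have : 2 ≤ e := by omega
      exact_mod_cast this
    exact (zero_CA (f := f) (s := s) hQ l).mono h5
  · -- a positive mode
    have b1 : Nat.ble N i = true := Nat.ble_eq_true_of_le (by omega)
    rw [b1, cond_true, cond_true]
    have e1 : Nat.sub (Nat.succ i) N = i + 1 - N := rfl
    have e2 : Nat.sub i N = i - N := rfl
    rw [e1, e2]
    obtain ⟨j, hj⟩ : ∃ j, i - N = j := ⟨i - N, rfl⟩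
    have e3 : i + 1 - N = j + 1 := by omega
    have e4 : k + 1 = ((j + 1 : ℕ) : ℤ) := by omega
    rw [hj, e3, e4]
    obtain ⟨p, p1, p2, p3⟩ := okEr_get _ _ _ he j (by omega)
    have p4 := hps j p p1
    have e5 : 1 + j = j + 1 := by ring
    rw [e5] at p3 p4
    have e6 : ps.getD j ⟨⟨0, 0, 0⟩, 0⟩ = p := by rw [List.getD_eq_getElem?_getD, p1]; rfl
    rw [e6]
    exact (pos_CA hh (by omega) p4 p2).mono (by exact_mod_cast p3)

/-- **`E1`** -/
theorem E1_CA {c : CD} {b s h Q N e : ℕ} {l : List (ℤ × ℤ)} {ps : List PF} (hT : c.Th1 = Th Q l) (hT' : c.Th1' = Th' Q l)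
    (hps : Tab b s Q l ps) (hc : okE12 b s h Q N 1 e l ps = true) (k : ℤ) (hk : |k| ≤ N) :
    CA (2 ^ s) (E1 c k) (dR b (zE b s h Q N 1 l ps) k) (dI b (zE b s h Q N 1 l ps) k) e := by
  have h1 := (EV_CA hps hc).2.2 k hk
  have e1 : EV Q 1 l (k + 1) = E1 c k := by
    unfold EV E1
    rw [hT, hT']
    congr 2
    push_cast
    ring
  rw [e1] at h1
  exact h1

/-- **`E2`** -/
theorem E2_CA {c : CD} {b s h Q N e : ℕ} {l : List (ℤ × ℤ)} {ps : List PF} (hT : c.Th2 = Th Q l) (hT' : c.Th2' = Th' Q l)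
    (hps : Tab b s Q l ps) (hc : okE12 b s h Q N 2 e l ps = true) (k : ℤ) (hk : |k| ≤ N) :
    CA (2 ^ s) (E2 c k) (dR b (zE b s h Q N 2 l ps) k) (dI b (zE b s h Q N 2 l ps) k) e := by
  have h1 := (EV_CA hps hc).2.2 k hk
  have e1 : EV Q 2 l (k + 1) = E2 c k := by
    unfold EV E2
    rw [hT, hT']
    congr 2
    push_cast
    ring
  rw [e1] at h1
  exact h1

end Pool.Agent.Helper51.SH
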