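import Pool.Agent.Helper51.SH.E12

/-!
# Project RC, SHARP, cell engine: the far frequencies of the row `e_0`

`∑ |E_j n|² ≤ (t / 2^ss)²` over every finite set of frequencies with `|n| ≥ M0 + 2`, from the kernel check `okTR`
(the entry of `k = 1`).
-/

set_option autoImplicit false

open MeasureTheory Set Filter Topology

namespace Pool.Agent.Helper51.SH

open Helper49.LT (ee norm_ee)
open Helper95.SH
open Helper41.SH (IA inv)
open Helper54.RC.Fast Helper76.RC.TrD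
open Pool.Agent.Helper51.RC (TR kRn_sum_le)

/-- the coefficients outside of the head -/
theorem Rn_sum_le {Θ Θ' : ℝ → ℝ} (h : IA Θ Θ') {k : ℤ} (hk : k ≠ 0) (H F : Finset ℤ) (hF : Disjoint F H) :
    ∑ n ∈ F, ‖Rn Θ Θ' n k‖ ^ 2 ≤ TR Θ Θ' H k := by
  have hk2 : 0 < (k : ℝ) ^ 2 := by positivity
  unfold TR
  rw [le_div_iff₀ hk2, Finset.sum_mul]
  have e4 : ∑ n ∈ F, ‖Rn Θ Θ' n k‖ ^ 2 * (k : ℝ) ^ 2 = ∑ n ∈ F, ‖(k : ℂ) * Rn Θ Θ' n k‖ ^ 2 := by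
    refine Finset.sum_congr rfl fun n _ => ?_
    rw [norm_mul, mul_pow, Complex.norm_intCast, sq_abs]
    ring
  rw [e4]
  have h1 := kRn_sum_le h hk (F ∪ H)
  rw [Finset.sum_union hF] at h1
  linarith

theorem E_tail {b s Q : ℕ} {l : List (ℤ × ℤ)} {ps : List PF} {M0 ss t : ℕ} {ts : List ℕ}
    (i1 : IA (Th Q l) (Th' Q l)) (hps : Tab b s Q l ps) (h : okTR b s Q l ps M0 ss (t :: ts) = true)
    (F : Finset ℤ) (hF : ∀ n ∈ F, M0 + 2 ≤ n.natAbs) :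
    ∑ n ∈ F, ‖Rn (Th Q l) (Th' Q l) (n + 1) 1‖ ^ 2 ≤ ((t : ℝ) / 2 ^ ss) ^ 2 := by
  have h1 := (okTR_sound hps h (i := 0) (by simp)).1
  have e0 : ((t :: ts).getD 0 0) = t := rfl
  rw [e0] at h1
  have e1 : (2 * ((0 : ℕ) : ℤ) + 1) = 1 := by norm_num
  rw [e1] at h1
  refine le_trans ?_ h1
  have h2 := Rn_sum_le i1 one_ne_zero (Finset.Icc (-(M0 : ℤ)) M0) (F.image fun n => n + 1) (by
    rw [Finset.disjoint_left]
    intro m hm hm2
    rw [Finset.mem_image] at hm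
    obtain ⟨n, hn, rfl⟩ := hm
    have := hF n hn
    rw [Finset.mem_Icc] at hm2
    omega)
  rw [Finset.sum_image (fun a _ c _ h => by simpa using h)] at h2
  exact h2

/-- **the far frequencies of `E1`** -/
theorem E1_tail {c : CD} {b s Q : ℕ} {l : List (ℤ × ℤ)} {ps : List PF} {M0 ss t : ℕ} {ts : List ℕ}
    (hT : c.Th1 = Th Q l) (hT' : c.Th1' = Th' Q l) (i1 : IA (Th Q l) (Th' Q l)) (hps : Tab b s Q l ps)
    (h : okTR b s Q l ps M0 ss (t :: ts) = true) (F : Finset ℤ) (hF : ∀ n ∈ F, M0 + 2 ≤ n.natAbs) :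
    ∑ n ∈ F, ‖E1 c n‖ ^ 2 ≤ ((t : ℝ) / 2 ^ ss) ^ 2 := by
  refine le_trans (le_of_eq ?_) (E_tail i1 hps h F hF)
  refine Finset.sum_congr rfl fun n _ => ?_
  unfold E1
  rw [norm_mul, norm_ee, one_mul, Complex.norm_conj, hT, hT']

/-- **the far frequencies of `E2`** -/
theorem E2_tail {c : CD} {b s Q : ℕ} {l : List (ℤ × ℤ)} {ps : List PF} {M0 ss t : ℕ} {ts : List ℕ}
    (hT : c.Th2 = Th Q l) (hT' : c.Th2' = Th' Q l) (i1 : IA (Th Q l) (Th' Q l)) (hps : Tab b s Q l ps)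
    (h : okTR b s Q l ps M0 ss (t :: ts) = true) (F : Finset ℤ) (hF : ∀ n ∈ F, M0 + 2 ≤ n.natAbs) :
    ∑ n ∈ F, ‖E2 c n‖ ^ 2 ≤ ((t : ℝ) / 2 ^ ss) ^ 2 := by
  refine le_trans (le_of_eq ?_) (E_tail i1 hps h F hF)
  refine Finset.sum_congr rfl fun n _ => ?_
  unfold E2
  rw [norm_mul, norm_ee, one_mul, Complex.norm_conj, hT, hT']

end Pool.Agent.Helper51.SH
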