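import Pool.Agent.Helper51.RC.M_O7
import Pool.Agent.Helper75.SH.HTW
import Pool.Agent.Helper30.SH.ZRow
import Pool.Agent.Helper76.RC.EJ

/-!
# Project RC, SHARP, cell engine: the numbers of the low rows from the tables

The tables are helper76's lists `ps` of approximations of `e^{-i m D}`, `m = 1, 2, …` (scale `2 ^ s`).
* `okT`: the kernel check of `TR Θ Θ' (Icc (-M0) M0) k ≤ (t / 2^ss)²`; the mode `n = 0` is exact.
* `okTs`: the check for the odd `k = 1, 3, …` (list of roots).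
* `low_row`: the rows `W_l`, `l = 2k + 2`, of arrays which vanish for `|n| ≤ M0`.
* `okLow`: the check of the cost of the low rows.
-/

set_option autoImplicit false

open MeasureTheory Set Filter Topology

namespace Pool.Agent.Helper51.SH

open Helper49.LT (ee ee_zero ee_neg norm_ee continuous_ee)
open Helper95.SH (Rn En wF Rn_neg En_neg En_D)
open Helper30.SH (cf coef_le)
open Helper41.SH (IA inv)
open Helper87.RC (BM fc_eq fc_cmul fc_add fc_sub)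
open Helper56.RC (fc)
open Helper54.RC.Fast Helper76.RC.TrD
open Pool.Agent.Helper51.RC (TR TR_neg WF_tail)
open Pool.Agent.Helper20.RC (lk lk_ge lk_sq)
open Pool.Agent.Helper75.SH (WT)

/-! ### the mode `0` -/

theorem getD_der (j : ℕ) (l : List (ℤ × ℤ)) (i : ℕ) :
    (der j l).getD i (0, 0) = (((j + i : ℕ) : ℤ) * (l.getD i (0, 0)).2, -(((j + i : ℕ) : ℤ) * (l.getD i (0, 0)).1)) := by
  induction l generalizing j i with
  | nil => simp [der]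
  | cons p l ih =>
    cases i with
    | zero => rfl
    | succ i =>
      have h := ih (j + 1) i
      have e : j + 1 + i = j + (i + 1) := by ring
      rw [e] at h
      exact h

theorem bm_DA (j : ℕ) (l : List (ℤ × ℤ)) : ∃ C, BM (fun x => (DA j l x : ℂ)) C := by
  induction l generalizing j with
  | nil => exact ⟨0, by simp [DA], fun t => by simp [DA]⟩
  | cons p l ih =>
    obtain ⟨C, hC⟩ := ih (j + 1)
    refine ⟨|(p.1 : ℝ)| + |(p.2 : ℝ)| + C, (Complex.continuous_ofReal.comp (continuous_DA j (p :: l))).measurable,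
      fun t => ?_⟩
    have h1 := hC.b t
    rw [Complex.norm_real, Real.norm_eq_abs] at h1 ⊢
    have a1 : |(p.1 : ℝ) * Real.cos (j * t)| ≤ |(p.1 : ℝ)| := by
      rw [abs_mul]
      exact mul_le_of_le_one_right (abs_nonneg _) (Real.abs_cos_le_one _)
    have a2 : |(p.2 : ℝ) * Real.sin (j * t)| ≤ |(p.2 : ℝ)| := by
      rw [abs_mul]
      exact mul_le_of_le_one_right (abs_nonneg _) (Real.abs_sin_le_one _)
    have b1 := abs_add_le ((p.1 : ℝ) * Real.cos (j * t) + (p.2 : ℝ) * Real.sin (j * t)) (DA (j + 1) l t)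
    have b2 := abs_add_le ((p.1 : ℝ) * Real.cos (j * t)) ((p.2 : ℝ) * Real.sin (j * t))
    show |(p.1 : ℝ) * Real.cos (j * t) + (p.2 : ℝ) * Real.sin (j * t) + DA (j + 1) l t| ≤ _
    linarith

theorem cs_ee (c s : ℤ) (j : ℕ) (x : ℝ) : (((c : ℝ) * Real.cos (j * x) + (s : ℝ) * Real.sin (j * x) : ℝ) : ℂ) =
    (((c : ℂ) - Complex.I * s) / 2) * ee (((j : ℤ) : ℝ) * x) + (((c : ℂ) + Complex.I * s) / 2) * ee (((-(j : ℤ) : ℤ) : ℝ) * x) := by
  have c1 : ee (((j : ℤ) : ℝ) * x) = Complex.cos (j * x) + Complex.sin (j * x) * Complex.I := by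
    have := ee_nat_mul' j x
    push_cast at this ⊢
    exact this
  have c2 : ee (((-(j : ℤ) : ℤ) : ℝ) * x) = Complex.cos (j * x) - Complex.sin (j * x) * Complex.I := by
    unfold Helper49.LT.ee
    have : Complex.cos (j * x) - Complex.sin (j * x) * Complex.I = Complex.exp (-(j * x) * Complex.I) := by
      rw [Complex.exp_mul_I, Complex.cos_neg, Complex.sin_neg]
      ring
    rw [this]
    congr 1
    push_cast
    ring
  rw [c1, c2]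
  push_cast
  have hI : Complex.I * Complex.I = -1 := Complex.I_mul_I
  linear_combination (s : ℂ) * Complex.sin (j * x) * hI

/-- the coefficients of a real trigonometric polynomial -/
theorem fc_DA (j : ℕ) (l : List (ℤ × ℤ)) (hj : 1 ≤ j) (k : ℕ) (hk : 1 ≤ k) : fc (fun x => (DA j l x : ℂ)) k =
    if k < j then 0 else (((l.getD (k - j) (0, 0)).1 : ℂ) - Complex.I * ((l.getD (k - j) (0, 0)).2 : ℂ)) / 2 := by
  induction l generalizing j with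
  | nil =>
    have e : (fun x => (DA j [] x : ℂ)) = fun _ => (0 : ℂ) := by
      funext x; simp [DA]
    rw [e, fc_eq]
    simp
  | cons p l ih =>
    obtain ⟨C, hC⟩ := bm_DA (j + 1) l
    have b1 : ∀ m : ℤ, BM (fun t : ℝ => ee ((m : ℝ) * t)) 1 := fun m =>
      ⟨(continuous_ee.comp (continuous_const.mul continuous_id)).measurable, fun t => by rw [norm_ee]⟩
    have e : (fun x => (DA j (p :: l) x : ℂ)) = fun x =>
        ((((p.1 : ℂ) - Complex.I * p.2) / 2) * ee (((j : ℤ) : ℝ) * x)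
          + (((p.1 : ℂ) + Complex.I * p.2) / 2) * ee (((-(j : ℤ) : ℤ) : ℝ) * x)) + (DA (j + 1) l x : ℂ) := by
      funext x
      have h := cs_ee p.1 p.2 j x
      show (((p.1 : ℝ) * Real.cos (j * x) + (p.2 : ℝ) * Real.sin (j * x) + DA (j + 1) l x : ℝ) : ℂ) = _
      rw [Complex.ofReal_add, h]
    rw [e, fc_add (((b1 _).cmul _).add ((b1 _).cmul _)) hC, fc_add ((b1 _).cmul _) ((b1 _).cmul _), fc_cmul, fc_cmul,
      Helper95.RC.fc_ee, Helper95.RC.fc_ee, ih (j + 1) (by omega)]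
    have h2 : ¬ (-(j : ℤ) = (k : ℤ)) := by omega
    rw [if_neg h2, mul_zero, add_zero]
    rcases lt_trichotomy k j with h | h | h
    · rw [if_neg (by omega), if_pos (by omega), if_pos h]
      ring
    · subst h
      rw [if_pos rfl, if_pos (by omega), if_neg (lt_irrefl _), Nat.sub_self]
      simp
    · rw [if_neg (by omega), if_neg (by omega), if_neg (by omega)]
      obtain ⟨i, rfl⟩ : ∃ i, k = j + 1 + i := ⟨k - (j + 1), by omega⟩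
      have e1 : j + 1 + i - (j + 1) = i := by omega
      have e2 : j + 1 + i - j = i + 1 := by omega
      rw [e1, e2, mul_zero, zero_add]
      rfl

/-- the square of the coefficient `k` of `2 Q Θ' / k` -/
def cK (l : List (ℤ × ℤ)) (k : ℕ) : ℕ :=
  Nat.add (Nat.mul (l.getD (Nat.sub k 1) (0, 0)).1.natAbs (l.getD (Nat.sub k 1) (0, 0)).1.natAbs)
    (Nat.mul (l.getD (Nat.sub k 1) (0, 0)).2.natAbs (l.getD (Nat.sub k 1) (0, 0)).2.natAbs)

theorem cK_eq (l : List (ℤ × ℤ)) (k : ℕ) :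
    (cK l k : ℝ) = ((l.getD (k - 1) (0, 0)).1 : ℝ) ^ 2 + ((l.getD (k - 1) (0, 0)).2 : ℝ) ^ 2 := by
  have h : cK l k = (l.getD (k - 1) (0, 0)).1.natAbs * (l.getD (k - 1) (0, 0)).1.natAbs
      + (l.getD (k - 1) (0, 0)).2.natAbs * (l.getD (k - 1) (0, 0)).2.natAbs := rfl
  rw [h]
  push_cast
  have e : ∀ z : ℤ, ((z.natAbs : ℕ) : ℝ) * ((z.natAbs : ℕ) : ℝ) = (z : ℝ) ^ 2 := by
    intro z
    have : ((z.natAbs : ℕ) : ℝ) = |(z : ℝ)| := by rw [Nat.cast_natAbs]; push_cast; rfl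
    rw [this, ← sq, sq_abs]
  rw [e, e]

/-- the mode `0` -/
theorem R0_sq (Q : ℕ) (hQ : 0 < Q) (l : List (ℤ × ℤ)) (k : ℕ) (hk : 1 ≤ k) :
    ‖((k : ℤ) : ℂ) * Rn (Th Q l) (Th' Q l) 0 k‖ ^ 2 = (k : ℝ) ^ 2 * cK l k / (4 * (Q : ℝ) ^ 2) := by
  have hkc : (((k : ℤ)) : ℂ) ≠ 0 := by
    have : (k : ℤ) ≠ 0 := by omega
    exact_mod_cast this
  have hQc : (Q : ℂ) ≠ 0 := by exact_mod_cast hQ.ne'
  unfold Rn
  rw [if_pos rfl]
  obtain ⟨C, hC⟩ := bm_DA 1 (der 1 l)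
  have b1 : BM (fun _ : ℝ => (1 : ℂ)) 1 := ⟨measurable_const, fun t => by simp⟩
  have e1 : (fun x => (Th' Q l x : ℂ)) = fun x => (1 : ℂ) - (1 / (Q : ℂ)) * (DA 1 (der 1 l) x : ℂ) := by
    funext x
    unfold Th' Dt
    push_cast
    ring
  have e3 : fc (fun _ : ℝ => (1 : ℂ)) (k : ℤ) = 0 := by
    have h := Helper95.RC.fc_ee 0 (k : ℤ)
    have h2 : (fun t : ℝ => ee (((0 : ℤ) : ℝ) * t)) = fun _ => (1 : ℂ) := by
      funext t
      rw [Int.cast_zero, zero_mul, ee_zero]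
    rw [h2, if_neg (by omega)] at h
    exact h
  rw [e1, fc_sub b1 (hC.cmul _), fc_cmul, e3, fc_DA 1 _ le_rfl k hk, if_neg (by omega), getD_der]
  have e4 : 1 + (k - 1) = k := by omega
  rw [e4]
  set c := (l.getD (k - 1) (0, 0)).1 with hc
  set s := (l.getD (k - 1) (0, 0)).2 with hs
  have e5 : ((k : ℤ) : ℂ) * ((0 - 1 / (Q : ℂ) * ((((((k : ℤ) * s : ℤ)) : ℂ) - Complex.I * ((-((k : ℤ) * c) : ℤ) : ℂ)) / 2))
      / ((k : ℤ) : ℂ)) = (-((k : ℝ) / (2 * Q)) : ℝ) * ((s : ℝ) + (c : ℝ) * Complex.I) := by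
    push_cast at hkc ⊢
    field_simp
    ring
  rw [e5, norm_mul, mul_pow, Complex.norm_real, Real.norm_eq_abs, sq_abs, cK_eq, ← hc, ← hs]
  have e6 : ‖(((s : ℝ) : ℂ) + ((c : ℝ) : ℂ) * Complex.I)‖ ^ 2 = (s : ℝ) ^ 2 + (c : ℝ) ^ 2 := by
    rw [← Complex.normSq_eq_norm_sq, Complex.normSq_add_mul_I]
  rw [e6]
  ring

/-! ### the digits -/

/-- `|d - o|` -/
def dA (o d : ℕ) : ℕ := Nat.add (Nat.sub d o) (Nat.sub o d)
/-- lower bound of the square of the modulus, error `e` -/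
def qA (e u v : ℕ) : ℕ := Nat.sub (Nat.add (Nat.mul u u) (Nat.mul v v)) (Nat.mul (Nat.mul 2 e) (Nat.add u v))
/-- the digit pair `j` -/
def qD (b j : ℕ) (p : PF) : ℕ := qA p.er (dA (Nat.pow 2 b) (dg b j p.z.x)) (dA (Nat.pow 2 b) (dg b j p.z.y))
/-- the frequencies `k - n` and `-k - n` -/
def qP (b k n : ℕ) (p : PF) : ℕ :=
  bif Nat.ble (Nat.add k n) p.z.N then
    Nat.add (qD b (Nat.sub (Nat.add p.z.N k) n) p) (qD b (Nat.sub p.z.N (Nat.add k n)) p)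
  else 0
/-- the sum over the modes; `n` is the mode of the first table -/
def qS (b k : ℕ) : ℕ → List PF → ℕ
  | _, [] => 0
  | n, p :: ps => Nat.add (Nat.div (Nat.mul (Nat.mul k k) (qP b k n p)) (Nat.mul n n)) (qS b k (Nat.succ n) ps)

theorem dA_eq (o d : ℕ) : ((dA o d : ℕ) : ℝ) = |(d : ℝ) - o| := by
  have h : dA o d = (d - o) + (o - d) := rfl
  rw [h]
  rcases le_total o d with h1 | h1
  · have h2 : (o : ℝ) ≤ d := by exact_mod_cast h1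
    rw [Nat.sub_eq_zero_of_le h1, add_zero, Nat.cast_sub h1, abs_of_nonneg (by linarith)]
  · have h2 : (d : ℝ) ≤ o := by exact_mod_cast h1
    rw [Nat.sub_eq_zero_of_le h1, zero_add, Nat.cast_sub h1, abs_of_nonpos (by linarith)]
    ring

theorem qA_le {e u v : ℕ} {x y : ℝ} (hu : (u : ℝ) = |x|) (hv : (v : ℝ) = |y|) {z : ℂ}
    (h : ‖z - ((x : ℂ) + Complex.I * (y : ℂ))‖ ≤ e) : ((qA e u v : ℕ) : ℝ) ≤ ‖z‖ ^ 2 := by
  have hq : qA e u v = (u * u + v * v) - (2 * e) * (u + v) := rfl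
  rw [hq]
  rcases le_total ((2 * e) * (u + v)) (u * u + v * v) with h1 | h1
  · rw [Nat.cast_sub h1]
    push_cast
    set t : ℂ := (x : ℂ) + Complex.I * (y : ℂ) with ht
    have h3 : ‖t‖ ^ 2 = x ^ 2 + y ^ 2 := by
      rw [← Complex.normSq_eq_norm_sq, ht, mul_comm, Complex.normSq_add_mul_I]
    have h4 : ‖t‖ ≤ u + v := by
      rw [hu, hv, ht]
      refine (norm_add_le _ _).trans ?_
      rw [norm_mul, Complex.norm_I, one_mul, Complex.norm_real, Complex.norm_real, Real.norm_eq_abs, Real.norm_eq_abs]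
    have h2 : ‖t‖ ≤ ‖z‖ + e := by
      have := norm_sub_norm_le t z
      rw [norm_sub_rev] at this
      linarith
    have u2 : (u : ℝ) * u = x ^ 2 := by rw [hu, ← sq, sq_abs]
    have v2 : (v : ℝ) * v = y ^ 2 := by rw [hv, ← sq, sq_abs]
    have he : (0 : ℝ) ≤ e := Nat.cast_nonneg e
    have h6 : (e : ℝ) * ‖t‖ ≤ e * (u + v) := mul_le_mul_of_nonneg_left h4 he
    rw [u2, v2, ← h3]
    by_cases hc : ‖t‖ ≤ e
    · have h5 : ‖t‖ ^ 2 ≤ e * ‖t‖ := by nlinarith [norm_nonneg t]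
      nlinarith [sq_nonneg ‖z‖, mul_nonneg he (norm_nonneg t)]
    · rw [not_le] at hc
      have h7 : (‖t‖ - e) ^ 2 ≤ ‖z‖ ^ 2 := pow_le_pow_left₀ (by linarith) (by linarith) 2
      nlinarith [sq_nonneg (e : ℝ)]
  · rw [Nat.sub_eq_zero_of_le h1, Nat.cast_zero]
    positivity

theorem qD_le {b s : ℕ} {p : PF} {f : ℝ → ℂ} {C : ℝ} (hf : BM f C) (h : AP b s p f) {m : ℤ} {j : ℕ}
    (hj : (j : ℤ) = m + p.z.N) (hm : m ∈ Finset.Icc (-(p.z.N : ℤ)) p.z.N) :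
    ((qD b j p : ℕ) : ℝ) ≤ 4 ^ s * ‖fc f m‖ ^ 2 := by
  have h1 := coef_le hf h m
  have h2 : (m + (p.z.N : ℤ)).toNat = j := by omega
  have hs : (0 : ℝ) < 2 ^ s := by positivity
  have hsc : (2 ^ s : ℂ) ≠ 0 := pow_ne_zero _ two_ne_zero
  unfold cf at h1
  rw [if_pos hm, h2] at h1
  have e1 : ‖(2 ^ s : ℂ) * fc f m - (((((dg b j p.z.x : ℕ) : ℝ) - 2 ^ b : ℝ) : ℂ)
      + Complex.I * ((((dg b j p.z.y : ℕ) : ℝ) - 2 ^ b : ℝ) : ℂ))‖ ≤ p.er := by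
    have e2 : (2 ^ s : ℂ) * fc f m - (((((dg b j p.z.x : ℕ) : ℝ) - 2 ^ b : ℝ) : ℂ)
      + Complex.I * ((((dg b j p.z.y : ℕ) : ℝ) - 2 ^ b : ℝ) : ℂ)) = (2 ^ s : ℂ) * (fc f m - cc b p.z j / 2 ^ s) := by
      unfold cc
      push_cast
      field_simp
    rw [e2, norm_mul, norm_pow, Complex.norm_ofNat]
    calc (2 : ℝ) ^ s * ‖fc f m - cc b p.z j / 2 ^ s‖ ≤ 2 ^ s * ((p.er : ℝ) / 2 ^ s) :=
          mul_le_mul_of_nonneg_left h1 hs.le
      _ = p.er := by field_simp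
  have hdx : ((dA (Nat.pow 2 b) (dg b j p.z.x) : ℕ) : ℝ) = |((dg b j p.z.x : ℕ) : ℝ) - 2 ^ b| := by
    rw [dA_eq]
    have : ((Nat.pow 2 b : ℕ) : ℝ) = 2 ^ b := by
      show ((2 ^ b : ℕ) : ℝ) = _
      push_cast; rfl
    rw [this]
  have hdy : ((dA (Nat.pow 2 b) (dg b j p.z.y) : ℕ) : ℝ) = |((dg b j p.z.y : ℕ) : ℝ) - 2 ^ b| := by
    rw [dA_eq]
    have : ((Nat.pow 2 b : ℕ) : ℝ) = 2 ^ b := by
      show ((2 ^ b : ℕ) : ℝ) = _
      push_cast; rfl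
    rw [this]
  have h3 := qA_le hdx hdy e1
  refine h3.trans (le_of_eq ?_)
  rw [norm_mul, norm_pow, Complex.norm_ofNat, mul_pow, ← pow_mul, mul_comm s 2, pow_mul]
  norm_num

theorem bm_tab (Q : ℕ) (l : List (ℤ × ℤ)) (n : ℤ) : BM (fun x => ee (-((n : ℝ) * Dt Q l x))) 1 :=
  ⟨continuous_ee.measurable.comp ((continuous_const.mul (continuous_Dt Q l)).neg).measurable, fun t => by rw [norm_ee]⟩

/-- the two terms of the mode `n ≥ 1` -/
theorem qP_le {b s Q : ℕ} {l : List (ℤ × ℤ)} {n k : ℕ} (hn : 1 ≤ n) {p : PF}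
    (hp : AP b s p (fun x => ee (-((n : ℝ) * Dt Q l x)))) :
    ((qP b k n p : ℕ) : ℝ) ≤ 4 ^ s * (‖En (Th Q l) n k‖ ^ 2 + ‖En (Th Q l) (-n) k‖ ^ 2) := by
  unfold qP
  cases h1 : Nat.ble (Nat.add k n) p.z.N with
  | false =>
    rw [cond_false]
    simp only [Nat.cast_zero]
    positivity
  | true =>
    rw [cond_true]
    have h1 : k + n ≤ p.z.N := Nat.le_of_ble_eq_true h1
    have hp' : AP b s p (fun x => ee (-((((n : ℤ)) : ℝ) * Dt Q l x))) := by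
      simpa using hp
    have a1 : En (Th Q l) n k = fc (fun x => ee (-((((n : ℤ)) : ℝ) * Dt Q l x))) ((k : ℤ) - n) := En_D (Dt Q l) n k
    have a2 : En (Th Q l) (-n) k = (starRingEnd ℂ) (fc (fun x => ee (-((((n : ℤ)) : ℝ) * Dt Q l x))) (-(k : ℤ) - n)) := by
      rw [En_neg]
      congr 1
      exact En_D (Dt Q l) n (-(k : ℤ))
    rw [a1, a2, Complex.norm_conj, mul_add]
    have e1 : Nat.sub (Nat.add p.z.N k) n = p.z.N + k - n := rfl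
    have e2 : Nat.sub p.z.N (Nat.add k n) = p.z.N - (k + n) := rfl
    have e3 : ∀ x y : ℕ, ((Nat.add x y : ℕ) : ℝ) = (x : ℝ) + y := fun x y => Nat.cast_add x y
    rw [e3, e1, e2]
    refine add_le_add ?_ ?_
    · exact qD_le (bm_tab Q l n) hp' (by omega) (by rw [Finset.mem_Icc]; omega)
    · exact qD_le (bm_tab Q l n) hp' (by omega) (by rw [Finset.mem_Icc]; omega)

/-- the tables -/
def Tab (b s Q : ℕ) (l : List (ℤ × ℤ)) (ps : List PF) : Prop :=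
  ∀ (i : ℕ) (p : PF), ps[i]? = some p → AP b s p (fun x => ee (-(((1 + i : ℕ) : ℝ) * Dt Q l x)))

theorem qS_le {b s Q : ℕ} {l : List (ℤ × ℤ)} {k : ℕ} (ps : List PF) (n : ℕ) (hn : 1 ≤ n)
    (hps : ∀ (i : ℕ) (p : PF), ps[i]? = some p → AP b s p (fun x => ee (-(((n + i : ℕ) : ℝ) * Dt Q l x)))) :
    ((qS b k n ps : ℕ) : ℝ) ≤ 4 ^ s * ∑ i ∈ Finset.range ps.length, (k : ℝ) ^ 2 *
      (‖En (Th Q l) ((n + i : ℕ) : ℤ) k‖ ^ 2 + ‖En (Th Q l) (-((n + i : ℕ) : ℤ)) k‖ ^ 2) / ((n + i : ℕ) : ℝ) ^ 2 := by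
  induction ps generalizing n with
  | nil => simp [qS]
  | cons p ps ih =>
    have h1 := ih (n + 1) (by omega) (fun i q hq => by
      have := hps (i + 1) q (by simpa using hq)
      have e : n + (i + 1) = n + 1 + i := by ring
      rw [e] at this
      exact this)
    have h2 : AP b s p (fun x => ee (-((n : ℝ) * Dt Q l x))) := by
      have := hps 0 p (by simp)
      simpa using this
    have h3 := qP_le (k := k) hn h2
    have hn0 : (0 : ℝ) < n := by exact_mod_cast hn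
    have h4 : ((Nat.div (Nat.mul (Nat.mul k k) (qP b k n p)) (Nat.mul n n) : ℕ) : ℝ) ≤
        4 ^ s * ((k : ℝ) ^ 2 * (‖En (Th Q l) n k‖ ^ 2 + ‖En (Th Q l) (-n) k‖ ^ 2) / (n : ℝ) ^ 2) := by
      have e : Nat.div (Nat.mul (Nat.mul k k) (qP b k n p)) (Nat.mul n n) = (k * k * qP b k n p) / (n * n) := rfl
      rw [e]
      refine (Nat.cast_div_le).trans ?_
      push_cast
      rw [← sq, ← sq]
      have h5 : (k : ℝ) ^ 2 * (qP b k n p : ℝ) ≤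
          (k : ℝ) ^ 2 * (4 ^ s * (‖En (Th Q l) n k‖ ^ 2 + ‖En (Th Q l) (-n) k‖ ^ 2)) :=
        mul_le_mul_of_nonneg_left h3 (by positivity)
      calc (k : ℝ) ^ 2 * (qP b k n p : ℝ) / (n : ℝ) ^ 2 ≤
          (k : ℝ) ^ 2 * (4 ^ s * (‖En (Th Q l) n k‖ ^ 2 + ‖En (Th Q l) (-n) k‖ ^ 2)) / (n : ℝ) ^ 2 :=
            div_le_div_of_nonneg_right h5 (by positivity)
        _ = _ := by ring
    have e0 : qS b k n (p :: ps) = Nat.div (Nat.mul (Nat.mul k k) (qP b k n p)) (Nat.mul n n) + qS b k (n + 1) ps := rfl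
    rw [e0, List.length_cons, Finset.sum_range_succ', mul_add]
    push_cast at h1 h4 ⊢
    rw [add_comm]
    refine add_le_add ?_ ?_
    · refine h1.trans (le_of_eq ?_)
      congr 1
      refine Finset.sum_congr rfl fun i _ => ?_
      have e1 : (n : ℤ) + 1 + (i : ℤ) = (n : ℤ) + ((i : ℤ) + 1) := by ring
      have e2 : (n : ℝ) + 1 + (i : ℝ) = (n : ℝ) + ((i : ℝ) + 1) := by ring
      rw [e1, e2]
    · simpa using h4

/-! ### the check of one row -/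

/-- the check of `TR ≤ (t / 2^ss)²` for the row `k`; `ps` is the table cut at `M0` -/
def okT (b s Q : ℕ) (l : List (ℤ × ℤ)) (ps : List PF) (ss k t : ℕ) : Bool :=
  Nat.ble (Nat.mul (Nat.mul (Nat.pow 4 s) (Nat.pow 4 ss)) (Nat.mul 4 (Nat.mul Q Q)))
    (Nat.add (Nat.mul (Nat.mul (Nat.pow 4 s) (Nat.pow 4 ss)) (Nat.mul (Nat.mul k k) (cK l k)))
      (Nat.mul (Nat.mul 4 (Nat.mul Q Q)) (Nat.add (Nat.mul (Nat.pow 4 ss) (qS b k 1 ps))
        (Nat.mul (Nat.pow 4 s) (Nat.mul (Nat.mul k k) (Nat.mul t t))))))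

theorem sum_sym (M0 : ℕ) (F : ℤ → ℝ) : ∑ n ∈ Finset.Icc (-(M0 : ℤ)) M0, F n =
    F 0 + ∑ i ∈ Finset.range M0, (F ((1 + i : ℕ) : ℤ) + F (-((1 + i : ℕ) : ℤ))) := by
  induction M0 with
  | zero => simp
  | succ m ih =>
    have e : Finset.Icc (-((m + 1 : ℕ) : ℤ)) ((m + 1 : ℕ) : ℤ) =
        insert (-((m + 1 : ℕ) : ℤ)) (insert (((m + 1 : ℕ) : ℤ)) (Finset.Icc (-(m : ℤ)) m)) := by
      ext x
      simp only [Finset.mem_insert, Finset.mem_Icc]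
      push_cast
      omega
    rw [e, Finset.sum_insert, Finset.sum_insert, ih, Finset.sum_range_succ]
    · have e2 : 1 + m = m + 1 := by ring
      rw [e2]
      ring
    · rw [Finset.mem_Icc]; push_cast; omega
    · rw [Finset.mem_insert, Finset.mem_Icc]; push_cast; omega

theorem okT_sound {b s Q : ℕ} (hQ : 0 < Q) {l : List (ℤ × ℤ)} {ps : List PF} {ss k t M0 : ℕ} (hk : 1 ≤ k)
    (hM : ps.length ≤ M0) (hps : Tab b s Q l ps) (h : okT b s Q l ps ss k t = true) :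
    TR (Th Q l) (Th' Q l) (Finset.Icc (-(M0 : ℤ)) M0) k ≤ ((t : ℝ) / 2 ^ ss) ^ 2 := by
  have h0 : 4 ^ s * 4 ^ ss * (4 * (Q * Q)) ≤ 4 ^ s * 4 ^ ss * (k * k * cK l k)
      + 4 * (Q * Q) * (4 ^ ss * qS b k 1 ps + 4 ^ s * (k * k * (t * t))) := Nat.le_of_ble_eq_true h
  have h1 := qS_le (k := k) ps 1 le_rfl hps
  have hkr : (0 : ℝ) < k := by exact_mod_cast hk
  have hQr : (0 : ℝ) < Q := by exact_mod_cast hQ
  have hS : (∑ i ∈ Finset.range ps.length, (k : ℝ) ^ 2 *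
      (‖En (Th Q l) ((1 + i : ℕ) : ℤ) k‖ ^ 2 + ‖En (Th Q l) (-((1 + i : ℕ) : ℤ)) k‖ ^ 2) / ((1 + i : ℕ) : ℝ) ^ 2)
      + (k : ℝ) ^ 2 * cK l k / (4 * (Q : ℝ) ^ 2) ≤
      ∑ n ∈ Finset.Icc (-(M0 : ℤ)) M0, ‖((k : ℤ) : ℂ) * Rn (Th Q l) (Th' Q l) n k‖ ^ 2 := by
    rw [sum_sym, R0_sq Q hQ l k hk, add_comm]
    refine add_le_add le_rfl ?_
    have h2 : ∑ i ∈ Finset.range ps.length, (k : ℝ) ^ 2 *
      (‖En (Th Q l) ((1 + i : ℕ) : ℤ) k‖ ^ 2 + ‖En (Th Q l) (-((1 + i : ℕ) : ℤ)) k‖ ^ 2) / ((1 + i : ℕ) : ℝ) ^ 2 =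
      ∑ i ∈ Finset.range ps.length, (‖((k : ℤ) : ℂ) * Rn (Th Q l) (Th' Q l) ((1 + i : ℕ) : ℤ) k‖ ^ 2
        + ‖((k : ℤ) : ℂ) * Rn (Th Q l) (Th' Q l) (-((1 + i : ℕ) : ℤ)) k‖ ^ 2) := by
      refine Finset.sum_congr rfl fun i _ => ?_
      have e1 : ((1 + i : ℕ) : ℤ) ≠ 0 := by omega
      have e2 : -((1 + i : ℕ) : ℤ) ≠ 0 := by omega
      unfold Rn
      rw [if_neg e1, if_neg e2, norm_mul, norm_mul, norm_div, norm_div, mul_pow, mul_pow, div_pow, div_pow,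
        Complex.norm_intCast, Complex.norm_intCast, Complex.norm_intCast, sq_abs, sq_abs, sq_abs]
      push_cast
      ring
    rw [h2]
    exact Finset.sum_le_sum_of_subset_of_nonneg (Finset.range_mono hM) fun i _ _ => by positivity
  unfold TR
  set Sn := ∑ n ∈ Finset.Icc (-(M0 : ℤ)) M0, ‖((k : ℤ) : ℂ) * Rn (Th Q l) (Th' Q l) n k‖ ^ 2 with hSn
  set σs := ∑ i ∈ Finset.range ps.length, (k : ℝ) ^ 2 *
      (‖En (Th Q l) ((1 + i : ℕ) : ℤ) k‖ ^ 2 + ‖En (Th Q l) (-((1 + i : ℕ) : ℤ)) k‖ ^ 2) / ((1 + i : ℕ) : ℝ) ^ 2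
      with hσ
  have h5 : (4 : ℝ) ^ s * 4 ^ ss * (4 * (Q * Q)) ≤ 4 ^ s * 4 ^ ss * (k * k * cK l k)
      + 4 * (Q * Q) * (4 ^ ss * qS b k 1 ps + 4 ^ s * (k * k * (t * t))) := by exact_mod_cast h0
  have p4 : (0 : ℝ) < 4 ^ s := by positivity
  have p5 : (0 : ℝ) < 4 ^ ss := by positivity
  have h6 : 4 * ((Q : ℝ) * Q) * (4 ^ ss * (qS b k 1 ps : ℝ)) ≤ 4 * ((Q : ℝ) * Q) * (4 ^ ss * (4 ^ s * σs)) := by
    refine mul_le_mul_of_nonneg_left (mul_le_mul_of_nonneg_left h1 p5.le) (by positivity)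
  have e4 : ((2 : ℝ) ^ ss) ^ 2 = 4 ^ ss := by
    rw [← pow_mul, mul_comm, pow_mul]; norm_num
  have hk2 : (((k : ℕ) : ℤ) : ℝ) = (k : ℝ) := by push_cast; rfl
  rw [hk2, div_pow, e4, div_le_div_iff₀ (by positivity) p5]
  have h7 : (4 : ℝ) ^ s * (4 * (Q * Q)) * ((1 - Sn) * 4 ^ ss) ≤ 4 ^ s * (4 * (Q * Q)) * ((t : ℝ) ^ 2 * (k : ℝ) ^ 2) := by
    have h8 : σs + (k : ℝ) ^ 2 * cK l k / (4 * (Q : ℝ) ^ 2) ≤ Sn := hS
    have h9 : (k : ℝ) ^ 2 * cK l k / (4 * (Q : ℝ) ^ 2) * (4 * (Q * Q)) = (k : ℝ) ^ 2 * cK l k := by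
      field_simp
    have h10 := mul_le_mul_of_nonneg_left h8 (by positivity : (0 : ℝ) ≤ 4 ^ s * 4 ^ ss * (4 * (Q * Q)))
    have h11 : (4 : ℝ) ^ s * 4 ^ ss * (4 * (Q * Q)) * (σs + (k : ℝ) ^ 2 * cK l k / (4 * (Q : ℝ) ^ 2)) =
        4 ^ s * 4 ^ ss * (4 * (Q * Q)) * σs + 4 ^ s * 4 ^ ss * ((k : ℝ) ^ 2 * cK l k / (4 * (Q : ℝ) ^ 2) * (4 * (Q * Q))) := by
      ring
    rw [h11, h9] at h10
    nlinarith [h5, h6, h10]
  exact le_of_mul_le_mul_left h7 (by positivity)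

/-! ### the rows -/

/-- the checks of the roots; `k` is the row of the first root -/
def okTs (b s Q : ℕ) (l : List (ℤ × ℤ)) (ps : List PF) (ss : ℕ) : ℕ → List ℕ → Bool
  | _, [] => true
  | k, t :: ts => bif okT b s Q l ps ss k t then okTs b s Q l ps ss (Nat.add k 2) ts else false

/-- **THE KERNEL CHECK** of the roots `ts` (over `2^ss`): entry `i` belongs to `k = 2i + 1` -/
def okTR (b s Q : ℕ) (l : List (ℤ × ℤ)) (ps : List PF) (M0 ss : ℕ) (ts : List ℕ) : Bool :=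
  bif Nat.ble 1 Q then okTs b s Q l (ps.take M0) ss 1 ts else false

theorem okTs_get {b s Q : ℕ} {l : List (ℤ × ℤ)} {ps : List PF} {ss : ℕ} (ts : List ℕ) (k : ℕ)
    (h : okTs b s Q l ps ss k ts = true) (i : ℕ) (hi : i < ts.length) :
    okT b s Q l ps ss (k + 2 * i) (ts.getD i 0) = true := by
  induction ts generalizing k i with
  | nil => simp at hi
  | cons t ts ih =>
    unfold okTs at h
    have h2 : okT b s Q l ps ss k t = true ∧ okTs b s Q l ps ss (k + 2) ts = true := by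
      cases h3 : okT b s Q l ps ss k t with
      | false => rw [h3] at h; simp at h
      | true => rw [h3] at h; exact ⟨rfl, h⟩
    cases i with
    | zero => exact h2.1
    | succ i =>
      have h4 := ih (k + 2) h2.2 i (by simpa using hi)
      have e : k + 2 + 2 * i = k + 2 * (i + 1) := by ring
      rw [e] at h4
      exact h4

theorem Tab.take {b s Q : ℕ} {l : List (ℤ × ℤ)} {ps : List PF} (h : Tab b s Q l ps) (M0 : ℕ) :
    Tab b s Q l (ps.take M0) := by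
  intro i p hp
  rw [List.getElem?_take] at hp
  split_ifs at hp
  exact h i p hp

/-- **the tail norms of the rows** -/
theorem okTR_sound {b s Q : ℕ} {l : List (ℤ × ℤ)} {ps : List PF} {M0 ss : ℕ} {ts : List ℕ}
    (hps : Tab b s Q l ps) (h : okTR b s Q l ps M0 ss ts = true) {i : ℕ} (hi : i < ts.length) :
    TR (Th Q l) (Th' Q l) (Finset.Icc (-(M0 : ℤ)) M0) (2 * i + 1) ≤ ((ts.getD i 0 : ℕ) / 2 ^ ss : ℝ) ^ 2 ∧
    TR (Th Q l) (Th' Q l) (Finset.Icc (-(M0 : ℤ)) M0) (-(2 * i + 1)) ≤ ((ts.getD i 0 : ℕ) / 2 ^ ss : ℝ) ^ 2 := by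
  unfold okTR at h
  cases h1 : Nat.ble 1 Q with
  | false => rw [h1] at h; simp at h
  | true =>
    rw [h1, cond_true] at h
    have hQ : 0 < Q := Nat.le_of_ble_eq_true h1
    have h2 := okTs_get ts 1 h i hi
    have h3 := okT_sound (M0 := M0) hQ (k := 1 + 2 * i) (by omega) (List.length_take_le _ _) (hps.take M0) h2
    have e : ((1 + 2 * i : ℕ) : ℤ) = 2 * i + 1 := by push_cast; ring
    rw [e] at h3
    refine ⟨h3, ?_⟩
    rw [TR_neg]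
    · exact h3
    · intro n hn
      rw [Finset.mem_Icc] at hn ⊢
      omega

/-- numerator of the weight of the row `k` -/
def wN (ts1 ts2 : List ℕ) (k : ℕ) : ℕ :=
  Nat.add (Nat.mul (Nat.add (ts1.getD k 0) (ts1.getD (Nat.succ k) 0)) (Nat.add (ts1.getD k 0) (ts1.getD (Nat.succ k) 0)))
    (Nat.mul (Nat.add (ts2.getD k 0) (ts2.getD (Nat.succ k) 0)) (Nat.add (ts2.getD k 0) (ts2.getD (Nat.succ k) 0)))

/-- the weight of the row `k` (`l = 2k + 2`) -/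
noncomputable def wl (ss : ℕ) (ts1 ts2 : List ℕ) (k : ℕ) : ℝ := (wN ts1 ts2 k : ℝ) / (4 * 4 ^ ss)

theorem wl_nonneg (ss : ℕ) (ts1 ts2 : List ℕ) (k : ℕ) : 0 ≤ wl ss ts1 ts2 k := by
  unfold wl
  positivity

/-- **THE LOW ROWS** -/
theorem low_row {b s Q : ℕ} {l1 l2 : List (ℤ × ℤ)} {ps1 ps2 : List PF} {M0 ss : ℕ} {ts1 ts2 : List ℕ}
    (i1 : IA (Th Q l1) (Th' Q l1)) (i2 : IA (Th Q l2) (Th' Q l2)) (hp1 : Tab b s Q l1 ps1) (hp2 : Tab b s Q l2 ps2)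
    (h1 : okTR b s Q l1 ps1 M0 ss ts1 = true) (h2 : okTR b s Q l2 ps2 M0 ss ts2 = true) {k : ℕ}
    (k1 : k + 1 < ts1.length) (k2 : k + 1 < ts2.length) (M : ℕ) (a1 a2 : ℤ → ℂ)
    (ha1 : ∀ n : ℤ, |n| ≤ M0 → a1 n = 0) (ha2 : ∀ n : ℤ, |n| ≤ M0 → a2 n = 0) :
    ‖WT (Th Q l1) (Th' Q l1) (Th Q l2) (Th' Q l2) M a1 a2 k‖ ^ 2 ≤ wl ss ts1 ts2 k *
      (∑ n ∈ Finset.Icc (-(M : ℤ)) M, ‖a1 n‖ ^ 2 + ∑ n ∈ Finset.Icc (-(M : ℤ)) M, ‖a2 n‖ ^ 2) := by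
  have hl : Even (2 * (k : ℤ) + 2) := ⟨(k : ℤ) + 1, by ring⟩
  have m1 : ∀ n ∈ Finset.Icc (-(M0 : ℤ)) M0, a1 n = 0 := fun n hn => ha1 n (by
    rw [Finset.mem_Icc] at hn
    exact abs_le.2 hn)
  have m2 : ∀ n ∈ Finset.Icc (-(M0 : ℤ)) M0, a2 n = 0 := fun n hn => ha2 n (by
    rw [Finset.mem_Icc] at hn
    exact abs_le.2 hn)
  have e1 : (2 * (k : ℤ) + 2 + 1) = 2 * ((k + 1 : ℕ) : ℤ) + 1 := by push_cast; ring
  have e2 : (1 - (2 * (k : ℤ) + 2)) = -(2 * (k : ℤ) + 1) := by ring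
  have h := WF_tail i1 i2 hl (Finset.Icc (-(M0 : ℤ)) M0) M a1 a2 m1 m2
    (t1 := ((ts1.getD (k + 1) 0 : ℕ) / 2 ^ ss : ℝ)) (u1 := ((ts1.getD k 0 : ℕ) / 2 ^ ss : ℝ))
    (t2 := ((ts2.getD (k + 1) 0 : ℕ) / 2 ^ ss : ℝ)) (u2 := ((ts2.getD k 0 : ℕ) / 2 ^ ss : ℝ))
    (by positivity) (by positivity) (by positivity) (by positivity)
    (by rw [e1]; exact (okTR_sound hp1 h1 k1).1) (by rw [e2]; exact (okTR_sound hp1 h1 (by omega)).2)
    (by rw [e1]; exact (okTR_sound hp2 h2 k2).1) (by rw [e2]; exact (okTR_sound hp2 h2 (by omega)).2)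
  refine h.trans (le_of_eq ?_)
  congr 1
  unfold wl
  have e4 : ((2 : ℝ) ^ ss) ^ 2 = 4 ^ ss := by
    rw [← pow_mul, mul_comm, pow_mul]; norm_num
  have e5 : wN ts1 ts2 k = (ts1.getD k 0 + ts1.getD (k + 1) 0) * (ts1.getD k 0 + ts1.getD (k + 1) 0)
      + (ts2.getD k 0 + ts2.getD (k + 1) 0) * (ts2.getD k 0 + ts2.getD (k + 1) 0) := rfl
  have p2 : (2 : ℝ) ^ ss ≠ 0 := by positivity
  rw [e5, ← e4]
  push_cast
  field_simp
  ring

/-! ### the cost of the low rows -/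

/-- `∑ (k < K0) g_k (l² - 1) w_k`, `l = 2k + 2` -/
def lowS (ts1 ts2 gs : List ℕ) : ℕ → ℕ
  | 0 => 0
  | k + 1 => Nat.add (lowS ts1 ts2 gs k) (Nat.mul (Nat.mul (gs.getD k 0)
      (Nat.mul (Nat.add (Nat.mul 2 k) 1) (Nat.add (Nat.mul 2 k) 3))) (wN ts1 ts2 k))

/-- the common denominator -/
def lowX (ss nuD gD : ℕ) : ℕ := Nat.mul (Nat.mul 8 (Nat.pow 4 ss)) (Nat.mul nuD gD)

/-- **THE CHECK** of `(nu/2) ∑ (k < k0) ga_k (l² - 1) w_k + (3/2) (9/20)^M0 ≤ dlow`: `nu = nuN/nuD`, `ga_k = gs_k/gD`,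
`dlow = dN/dD` -/
def okLow (M0 ss nuN nuD gD dN dD k0 : ℕ) (ts1 ts2 gs : List ℕ) : Bool :=
  bif Nat.ble 1 (Nat.mul (Nat.mul nuD gD) dD) then
    bif Nat.ble (Nat.succ k0) ts1.length then
      bif Nat.ble (Nat.succ k0) ts2.length then
        Nat.ble (Nat.mul dD (Nat.add (Nat.mul (Nat.mul nuN (lowS ts1 ts2 gs k0)) (Nat.mul 2 (Nat.pow 20 M0)))
            (Nat.mul (Nat.mul 3 (Nat.pow 9 M0)) (lowX ss nuD gD))))
          (Nat.mul dN (Nat.mul (lowX ss nuD gD) (Nat.mul 2 (Nat.pow 20 M0))))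
      else false
    else false
  else false

theorem lowS_eq (ts1 ts2 gs : List ℕ) (k0 : ℕ) : (lowS ts1 ts2 gs k0 : ℝ) =
    ∑ k ∈ Finset.range k0, (gs.getD k 0 : ℝ) * ((lk k ^ 2 - 1) * wN ts1 ts2 k) := by
  induction k0 with
  | zero => simp [lowS]
  | succ k ih =>
    have e : lowS ts1 ts2 gs (k + 1) = lowS ts1 ts2 gs k + (gs.getD k 0 * ((2 * k + 1) * (2 * k + 3))) * wN ts1 ts2 k := rfl
    rw [Finset.sum_range_succ, ← ih, e]
    unfold lk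
    push_cast
    ring

/-- **the cost of the low rows** -/
theorem okLow_sound {M0 ss nuN nuD gD dN dD k0 : ℕ} {ts1 ts2 gs : List ℕ}
    (h : okLow M0 ss nuN nuD gD dN dD k0 ts1 ts2 gs = true) {nu dlow : ℝ} {ga : ℕ → ℝ}
    (h0 : 0 ≤ nu) (hnu : nu ≤ (nuN : ℝ) / nuD) (hga : ∀ k < k0, ga k ≤ ((gs.getD k 0 : ℕ) : ℝ) / gD)
    (hd : (dN : ℝ) / dD ≤ dlow) :
    k0 < ts1.length ∧ k0 < ts2.length ∧
      nu / 2 * ∑ k ∈ Finset.range k0, ga k * ((lk k ^ 2 - 1) * wl ss ts1 ts2 k) + 3 / 2 * (9 / 20) ^ M0 ≤ dlow := by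
  unfold okLow at h
  simp only [Bool.cond_eq_ite, Bool.ite_eq_true_distrib, Bool.false_eq_true, if_false_right] at h
  obtain ⟨c1, c2, c3, c4⟩ := h
  have c1 : 1 ≤ nuD * gD * dD := Nat.le_of_ble_eq_true c1
  have c2 : k0 + 1 ≤ ts1.length := Nat.le_of_ble_eq_true c2
  have c3 : k0 + 1 ≤ ts2.length := Nat.le_of_ble_eq_true c3
  have c4 : dD * (nuN * lowS ts1 ts2 gs k0 * (2 * 20 ^ M0) + 3 * 9 ^ M0 * (8 * 4 ^ ss * (nuD * gD))) ≤
      dN * (8 * 4 ^ ss * (nuD * gD) * (2 * 20 ^ M0)) := Nat.le_of_ble_eq_true c4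
  refine ⟨c2, c3, ?_⟩
  have n1 : 0 < nuD := Nat.pos_of_ne_zero fun h => by rw [h] at c1; simp at c1
  have n2 : 0 < gD := Nat.pos_of_ne_zero fun h => by rw [h] at c1; simp at c1
  have n3 : 0 < dD := Nat.pos_of_ne_zero fun h => by rw [h] at c1; simp at c1
  have r1 : (0 : ℝ) < nuD := by exact_mod_cast n1
  have r2 : (0 : ℝ) < gD := by exact_mod_cast n2
  have r3 : (0 : ℝ) < dD := by exact_mod_cast n3
  refine le_trans ?_ hd
  have s1 : ∑ k ∈ Finset.range k0, ga k * ((lk k ^ 2 - 1) * wl ss ts1 ts2 k) ≤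
      (lowS ts1 ts2 gs k0 : ℝ) / (gD * (4 * 4 ^ ss)) := by
    rw [lowS_eq, Finset.sum_div]
    refine Finset.sum_le_sum fun k hk => ?_
    have h1 := mul_le_mul_of_nonneg_right (hga k (Finset.mem_range.1 hk))
      (mul_nonneg (lk_sq k).le (wl_nonneg ss ts1 ts2 k))
    refine h1.trans (le_of_eq ?_)
    unfold wl
    field_simp
  have hS0 : (0 : ℝ) ≤ (lowS ts1 ts2 gs k0 : ℝ) / (gD * (4 * 4 ^ ss)) := by positivity
  have s2 : nu / 2 * ∑ k ∈ Finset.range k0, ga k * ((lk k ^ 2 - 1) * wl ss ts1 ts2 k) ≤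
      (nuN : ℝ) / nuD / 2 * ((lowS ts1 ts2 gs k0 : ℝ) / (gD * (4 * 4 ^ ss))) := by
    refine (mul_le_mul_of_nonneg_left s1 (by positivity)).trans ?_
    exact mul_le_mul_of_nonneg_right (by linarith) hS0
  have c5 : (dD : ℝ) * (nuN * lowS ts1 ts2 gs k0 * (2 * 20 ^ M0) + 3 * 9 ^ M0 * (8 * 4 ^ ss * (nuD * gD))) ≤
      dN * (8 * 4 ^ ss * (nuD * gD) * (2 * 20 ^ M0)) := by exact_mod_cast c4
  have e1 : (nuN : ℝ) / nuD / 2 * ((lowS ts1 ts2 gs k0 : ℝ) / (gD * (4 * 4 ^ ss))) + 3 / 2 * (9 / 20) ^ M0 =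
      (nuN * lowS ts1 ts2 gs k0 * (2 * 20 ^ M0) + 3 * 9 ^ M0 * (8 * 4 ^ ss * (nuD * gD)))
        / (8 * 4 ^ ss * (nuD * gD) * (2 * 20 ^ M0)) := by
    rw [div_pow]
    field_simp
    ring
  refine (add_le_add s2 le_rfl).trans ?_
  rw [e1, div_le_div_iff₀ (by positivity) r3]
  linarith

/-- **ALL LOW ROWS**, the hypothesis `hw` of helper75's final theorem -/
theorem low_rows {b s Q : ℕ} {l1 l2 : List (ℤ × ℤ)} {ps1 ps2 : List PF} {M0 ss : ℕ} {ts1 ts2 : List ℕ}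
    (i1 : IA (Th Q l1) (Th' Q l1)) (i2 : IA (Th Q l2) (Th' Q l2)) (hp1 : Tab b s Q l1 ps1) (hp2 : Tab b s Q l2 ps2)
    (h1 : okTR b s Q l1 ps1 M0 ss ts1 = true) (h2 : okTR b s Q l2 ps2 M0 ss ts2 = true) {k0 : ℕ}
    (k1 : k0 < ts1.length) (k2 : k0 < ts2.length) : ∀ k, k < k0 → ∀ (M : ℕ) (a1 a2 : ℤ → ℂ),
      (∀ n : ℤ, |n| ≤ M0 → a1 n = 0) → (∀ n : ℤ, |n| ≤ M0 → a2 n = 0) →
      ‖WT (Th Q l1) (Th' Q l1) (Th Q l2) (Th' Q l2) M a1 a2 k‖ ^ 2 ≤ wl ss ts1 ts2 k *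
      (∑ n ∈ Finset.Icc (-(M : ℤ)) M, ‖a1 n‖ ^ 2 + ∑ n ∈ Finset.Icc (-(M : ℤ)) M, ‖a2 n‖ ^ 2) :=
  fun k hk M a1 a2 ha1 ha2 => low_row i1 i2 hp1 hp2 h1 h2 (by omega) (by omega) M a1 a2 ha1 ha2

/-- the tables from helper76's chain -/
theorem tab_ejC {b r s sE M Q R n τ : ℕ} {l : List (ℤ × ℤ)} {ws : List ℕ} {res : List PF} (hr : r ≤ b + 1)
    (hs : s ≤ b) (h : ejC b r s sE M Q R n τ 1 l ws = some res) : Tab b s Q l res.reverse := by
  intro i p hp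
  have := ejC_sound b r s sE M Q R n τ 1 l ws res hr hs h i p hp
  simpa only [mul_one] using this

end Pool.Agent.Helper51.SH
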