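import Pool.Agent.Helper51.SH.ETail
import Pool.Agent.Helper20.SH.FRA
import Pool.Agent.Helper70.SH.Asm

/-!
# Project RC, SHARP, cell engine: the low rows and the tails of `e_0` of a record (glue for the cell files)
-/

set_option autoImplicit false

open MeasureTheory Set Filter Topology

namespace Pool.Agent.Helper51.SH

open Helper95.SH
open Helper49.Cell
open Helper41.SH (IA inv)
open Helper54.RC.Fast Helper76.RC.TrD
open Helper70.SH (cd Len)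
open Pool.Agent.Helper20.SH (Tb)

/-- the tables of a cell file are tables: `P = ((ejC ..).getD []).reverse` -/
theorem tab_getD {b r s sE M Q R n τ : ℕ} {l : List (ℤ × ℤ)} {ws : List ℕ} (hr : r ≤ b + 1) (hs : s ≤ b) :
    Tab b s Q l ((ejC b r s sE M Q R n τ 1 l ws).getD []).reverse := by
  cases h : ejC b r s sE M Q R n τ 1 l ws with
  | none =>
    intro i p hp
    simp at hp
  | some res => exact tab_ejC hr hs h

/-- initial parts of tables are tables -/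
theorem Tab.tk {b s Q : ℕ} {l : List (ℤ × ℤ)} {ps : List PF} (h : Tab b s Q l ps) (m : ℕ) :
    Tab b s Q l (ps.take m) := h.take m

/-- **the far frequencies of `E1` of a record** -/
theorem tbE1 {R : Rec} {C : Crt} (h : R.ok C = true) {K0 : ℕ} (len : Len R K0) (s : ℕ) {b s' : ℕ} {ps : List PF}
    {M0 ss t : ℕ} {ts : List ℕ} (hps : Tab b s' 1000 R.D1 ps) (hT : okTR b s' 1000 R.D1 ps M0 ss (t :: ts) = true) :
    Tb (M0 + 2) (E1 (cd R h len s)) (((t : ℝ) / 2 ^ ss) ^ 2) :=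
  E1_tail rfl rfl (Rec.ok_sound h).i1 hps hT

/-- **the far frequencies of `E2` of a record** -/
theorem tbE2 {R : Rec} {C : Crt} (h : R.ok C = true) {K0 : ℕ} (len : Len R K0) (s : ℕ) {b s' : ℕ} {ps : List PF}
    {M0 ss t : ℕ} {ts : List ℕ} (hps : Tab b s' 1000 R.D2 ps) (hT : okTR b s' 1000 R.D2 ps M0 ss (t :: ts) = true) :
    Tb (M0 + 2) (E2 (cd R h len s)) (((t : ℝ) / 2 ^ ss) ^ 2) :=
  E2_tail rfl rfl (Rec.ok_sound h).i2 hps hT

/-- both with one bound `tE = tN / tD` and any larger window `M` -/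
theorem tbE {R : Rec} {C : Crt} (h : R.ok C = true) {K0 : ℕ} (len : Len R K0) (s : ℕ) {b s' : ℕ} {ps1 ps2 : List PF}
    {M0 ss M t1 t2 tN tD : ℕ} {ts1 ts2 : List ℕ} (hp1 : Tab b s' 1000 R.D1 ps1) (hp2 : Tab b s' 1000 R.D2 ps2)
    (h1 : okTR b s' 1000 R.D1 ps1 M0 ss (t1 :: ts1) = true) (h2 : okTR b s' 1000 R.D2 ps2 M0 ss (t2 :: ts2) = true)
    (hM : M0 + 2 ≤ M) (hD : 0 < tD) (e1 : t1 * t1 * tD ≤ tN * 4 ^ ss) (e2 : t2 * t2 * tD ≤ tN * 4 ^ ss) :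
    Tb M (E1 (cd R h len s)) ((tN : ℝ) / tD) ∧ Tb M (E2 (cd R h len s)) ((tN : ℝ) / tD) := by
  have key : ∀ t : ℕ, t * t * tD ≤ tN * 4 ^ ss → ((t : ℝ) / 2 ^ ss) ^ 2 ≤ (tN : ℝ) / tD := fun t e => by
    have hD' : (0 : ℝ) < tD := by exact_mod_cast hD
    have e' : (t : ℝ) * t * tD ≤ tN * 4 ^ ss := by exact_mod_cast e
    have e4 : ((2 : ℝ) ^ ss) ^ 2 = 4 ^ ss := by rw [← pow_mul, mul_comm, pow_mul]; norm_num
    rw [div_pow, e4, div_le_div_iff₀ (by positivity) hD', pow_two]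
    exact e'
  exact ⟨(tbE1 h len s hp1 h1).mono hM (key t1 e1), (tbE2 h len s hp2 h2).mono hM (key t2 e2)⟩

/-- the same for lists, one check -/
def okE (M0 M ss tN tD : ℕ) (ts1 ts2 : List ℕ) : Bool :=
  Nat.ble (M0 + 2) M && (Nat.ble 1 tD && (Nat.ble 1 ts1.length && (Nat.ble 1 ts2.length &&
    (Nat.ble (Nat.mul (Nat.mul (ts1.getD 0 0) (ts1.getD 0 0)) tD) (Nat.mul tN (Nat.pow 4 ss)) &&
      Nat.ble (Nat.mul (Nat.mul (ts2.getD 0 0) (ts2.getD 0 0)) tD) (Nat.mul tN (Nat.pow 4 ss))))))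

theorem tbE_of {R : Rec} {C : Crt} (h : R.ok C = true) {K0 : ℕ} (len : Len R K0) (s : ℕ) {b s' : ℕ}
    {ps1 ps2 : List PF} {M0 ss M tN tD : ℕ} {ts1 ts2 : List ℕ} (hp1 : Tab b s' 1000 R.D1 ps1)
    (hp2 : Tab b s' 1000 R.D2 ps2) (h1 : okTR b s' 1000 R.D1 ps1 M0 ss ts1 = true)
    (h2 : okTR b s' 1000 R.D2 ps2 M0 ss ts2 = true) (hE : okE M0 M ss tN tD ts1 ts2 = true) :
    Tb M (E1 (cd R h len s)) ((tN : ℝ) / tD) ∧ Tb M (E2 (cd R h len s)) ((tN : ℝ) / tD) := by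
  unfold okE at hE
  simp only [Bool.and_eq_true, Nat.ble_eq] at hE
  obtain ⟨a1, a2, a3, a4, a5, a6⟩ := hE
  cases ts1 with
  | nil => simp at a3
  | cons t1 ts1 =>
    cases ts2 with
    | nil => simp at a4
    | cons t2 ts2 => exact tbE h len s hp1 hp2 h1 h2 a1 a2 a5 a6

end Pool.Agent.Helper51.SH
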