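import Pool.Agent.Helper51.SH.TlR
import Pool.Agent.Helper20.SH.FRE

/-!
# Project RC, SHARP, cell engine: the far coefficients of a record in the form `TlE` (helper20)

`TlE_rec`: all bounds are naturals over `2 ^ (2 s)`, computed from the tables (`tZm`, `tUm`, `tEm`; the fields of the
second multiplier vanish), with one kernel check `okTe`. `ZOk_rec`: the other conditions.
-/

set_option autoImplicit false

open MeasureTheory Set Filter Topology

namespace Pool.Agent.Helper51.SH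

open Helper49.LT hiding sg
open Helper49.RC (om)
open Helper49.Cell
open Helper49.Sharp
open Helper95.RC
open Helper95.SH (CD E1 E2 Z1 Z2)
open Helper56.RC (fc)
open Helper87.RC (BM)
open Helper41.SH (IA inv)
open Helper54.RC.Fast Helper76.RC.TrD
open Helper70.SH (cd cd_ok okM CrtD LocH Len)
open _root_.Helper30.SH
open Pool.Agent.Helper20.SH (Tb TlE ZOk)
open Pool.Agent.Helper64.SH (okU UR Tb_AP' Tb_d)

/-- the minimum -/
def mnN (a b : ℕ) : ℕ := bif Nat.ble a b then a else b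

theorem mnN_left (a b : ℕ) : mnN a b ≤ a := by
  unfold mnN
  cases hab : Nat.ble a b with
  | true => exact le_rfl
  | false =>
    have h : ¬ a ≤ b := fun h => by
      have := Nat.ble_eq_true_of_le h
      rw [this] at hab
      exact Bool.noConfusion hab
    exact (not_le.1 h).le

theorem mnN_right (a b : ℕ) : mnN a b ≤ b := by
  unfold mnN
  cases hab : Nat.ble a b with
  | true => exact Nat.le_of_ble_eq_true hab
  | false => exact le_rfl

/-- the bound beyond `|n| ≤ M`, any window -/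
def tUb (b r M : ℕ) (p : PF) : ℕ := Pool.Agent.Helper64.SH.tU b r (mnN M p.z.N) p.er p.z

theorem Tb_PF {b s r M : ℕ} (hr : r ≤ b + 1) {p : PF} {f : ℝ → ℂ} {C : ℝ} (hf : BM f C) (h : AP b s p f) :
    Tb (M + 1) (fc f) (((tUb b r M p : ℕ) : ℝ) / 2 ^ (2 * s)) :=
  (Tb_AP' hr hf (v := p.z) (e := p.er) h (mnN_right M p.z.N)).mono (Nat.succ_le_succ (mnN_left M p.z.N)) le_rfl

/-- the bound for `zz1, zz2` beyond `|n| ≤ M` -/
def tZm (z : ZD) (M : ℕ) : ℕ := mxN (tUb z.b z.r M z.z1) (tUb z.b z.r M z.z2)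

/-- the bound for `u1, u2` beyond `|n| ≤ M + 2` -/
def tUm (z : ZD) (M : ℕ) : ℕ := mxN (tUb z.b z.r (Nat.add M 2) z.U1) (tUb z.b z.r (Nat.add M 2) z.U2)

/-- the bound for `E1` and `E2` together -/
def tEm (s ss : ℕ) (ts1 ts2 : List ℕ) : ℕ :=
  Nat.succ (Nat.div (Nat.mul (Nat.add (Nat.mul (ts1.getD 0 0) (ts1.getD 0 0)) (Nat.mul (ts2.getD 0 0) (ts2.getD 0 0)))
    (Nat.pow 4 s)) (Nat.pow 4 ss))

/-- **THE CHECK** -/
def okTe (R : Rec) (z : ZD) (ue M0 M : ℕ) (ts1 ts2 : List ℕ) : Bool :=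
  bif Nat.beq z.U1.er ue then
  bif Nat.beq z.U2.er ue then
  bif decide (z.e1 = R.e1) then
  bif decide (z.e2 = R.e2) then
  bif Nat.beq z.D 100000 then
  bif decide ((z.la : ℤ) = 100000 - R.lam) then
  bif Nat.ble (Nat.add M0 1) M then
  bif Nat.ble (Helper87.SH.Mof R.f1) (Nat.add M 2) then
  bif Nat.ble (Helper87.SH.Mof R.f2) (Nat.add M 2) then
  bif Nat.ble 1 ts1.length then Nat.ble 1 ts2.length
  else false else false else false else false else false else false else false else false else false else false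

theorem tEm_le (s ss t1 t2 : ℕ) (ts1 ts2 : List ℕ) :
    ((t1 : ℝ) / 2 ^ ss) ^ 2 + ((t2 : ℝ) / 2 ^ ss) ^ 2 ≤ ((tEm s ss (t1 :: ts1) (t2 :: ts2) : ℕ) : ℝ) / 2 ^ (2 * s) := by
  set m := t1 * t1 + t2 * t2 with hm
  have e : tEm s ss (t1 :: ts1) (t2 :: ts2) = m * 4 ^ s / 4 ^ ss + 1 := rfl
  have h1 : m * 4 ^ s < (m * 4 ^ s / 4 ^ ss + 1) * 4 ^ ss := by
    have := Nat.lt_div_mul_add (a := m * 4 ^ s) (b := 4 ^ ss) (by positivity)
    calc m * 4 ^ s < m * 4 ^ s / 4 ^ ss * 4 ^ ss + 4 ^ ss := this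
      _ = _ := by ring
  have h2 : (m : ℝ) * 4 ^ s ≤ ((m * 4 ^ s / 4 ^ ss + 1 : ℕ) : ℝ) * 4 ^ ss := by exact_mod_cast h1.le
  have e3 : (m : ℝ) = t1 ^ 2 + t2 ^ 2 := by rw [hm]; push_cast; ring
  have e4 : ((2 : ℝ) ^ ss) ^ 2 = 4 ^ ss := by rw [← pow_mul, mul_comm, pow_mul]; norm_num
  have e5 : (2 : ℝ) ^ (2 * s) = 4 ^ s := by rw [pow_mul]; norm_num
  rw [e, div_pow, div_pow, e4, e5, ← add_div, ← e3, div_le_div_iff₀ (by positivity) (by positivity)]
  exact h2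

section

variable {R : Rec} {C : Crt} (h : R.ok C = true) {K0 : ℕ} (len : Len R K0)

/-- the conditions `ZOk` of a record -/
theorem ZOk_rec (s0 : ℕ) (H0 : LocH) : ZOk (cd R h len s0) := by
  have k := Rec.ok_sound h
  exact ⟨(Rec.stat h H0).reg, rfl, k.i1, k.i2, rfl, rfl⟩

variable {D : CrtD} {r uQ uh ue : ℕ} {z : ZD}

/-- **THE FAR COEFFICIENTS OF A RECORD** -/
theorem TlE_rec (hm : okM R D = true) (H0 : LocH)
    (hu : okU z.b r z.s uQ uh ue R.z z.U1.z z.U2.z = true) (hQ : 0 < uQ) (hz : z.ok = true)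
    {bT sT ss M0 M : ℕ} {ps1 ps2 : List PF} {ts1 ts2 : List ℕ} (hp1 : Tab bT sT 1000 R.D1 ps1)
    (hp2 : Tab bT sT 1000 R.D2 ps2) (h1 : okTR bT sT 1000 R.D1 ps1 M0 ss ts1 = true)
    (h2 : okTR bT sT 1000 R.D2 ps2 M0 ss ts2 = true) (ok : okTe R z ue M0 M ts1 ts2 = true) :
    TlE (cd R h len D.s) M (((tZm z M : ℕ) : ℝ) / 2 ^ (2 * z.s)) (((tUm z M : ℕ) : ℝ) / 2 ^ (2 * z.s)) 0
      (((tEm z.s ss ts1 ts2 : ℕ) : ℝ) / 2 ^ (2 * z.s)) := by
  unfold okTe at ok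
  simp only [bif_tr] at ok
  obtain ⟨o1, o2, o3, o4, o5, o6, o7, o12, o13, o14, o15⟩ := ok
  have hU1 : z.U1.er = ue := Nat.eq_of_beq_eq_true o1
  have hU2 : z.U2.er = ue := Nat.eq_of_beq_eq_true o2
  have he1 : z.e1 = R.e1 := of_decide_eq_true o3
  have he2 : z.e2 = R.e2 := of_decide_eq_true o4
  have hD : z.D = 100000 := Nat.eq_of_beq_eq_true o5
  have hla : (z.la : ℤ) = 100000 - R.lam := of_decide_eq_true o6
  have hM : M0 + 1 ≤ M := Nat.le_of_ble_eq_true o7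
  have m5 : Helper87.SH.Mof R.f1 ≤ M + 2 := Nat.le_of_ble_eq_true o12
  have m6 : Helper87.SH.Mof R.f2 ≤ M + 2 := Nat.le_of_ble_eq_true o13
  have l1 : 1 ≤ ts1.length := Nat.le_of_ble_eq_true o14
  have l2 : 1 ≤ ts2.length := Nat.le_of_ble_eq_true o15
  have kk := cd_ok h len hm H0
  have hreg : R.par.Reg := kk.st.reg
  obtain ⟨u1, u2⟩ := UR h hQ hu
  have hr : z.r ≤ z.b + 1 := by
    have := hz
    unfold ZD.ok at this
    rw [bif_tr] at this
    exact Nat.le_of_ble_eq_true this.1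
  have w1 : AP z.b z.s z.U1 R.par.u1 := by
    have e : z.U1 = ⟨z.U1.z, ue⟩ := by rw [← hU1]
    rw [e]
    exact u1
  have w2 : AP z.b z.s z.U2 R.par.u2 := by
    have e : z.U2 = ⟨z.U2.z, ue⟩ := by rw [← hU2]
    rw [e]
    exact u2
  have heta : R.par.eta = ((z.e1 : ℂ) + Complex.I * z.e2) / z.D := by
    rw [Helper70.SH.par_eta, he1, he2, hD]
    push_cast
    rfl
  have hlam : 1 - R.par.lam = (z.la : ℝ) / z.D := by
    have h1 : (z.la : ℝ) = 100000 - R.lam := by exact_mod_cast hla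
    rw [Helper70.SH.par_lam, hD, h1]
    push_cast
    ring
  obtain ⟨zz_1, zz_2⟩ := zz_AP z hreg heta hlam w1 w2 hz
  have rat : ∀ {x y : ℕ}, x ≤ y → (x : ℝ) / 2 ^ (2 * z.s) ≤ (y : ℝ) / 2 ^ (2 * z.s) := fun hxy => by
    refine div_le_div_of_nonneg_right ?_ (by positivity)
    exact_mod_cast hxy
  have tu1 := Tb_PF hr (M := M + 2) (Helper49.Sharp.u1_bm hreg) w1
  have tu2 := Tb_PF hr (M := M + 2) (Helper49.Sharp.u2_bm hreg) w2
  obtain ⟨C1, b1⟩ := zz1_bm hreg (rfl : R.par.a0 = fun _ => 0)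
  obtain ⟨C2, b2⟩ := zz2_bm hreg (rfl : R.par.a0 = fun _ => 0)
  have tz1 := Tb_PF hr (M := M) b1 zz_1
  have tz2 := Tb_PF hr (M := M) b2 zz_2
  obtain ⟨t1, ts1', rfl⟩ : ∃ t ts, ts1 = t :: ts := by
    cases ts1 with
    | nil => simp at l1
    | cons t ts => exact ⟨t, ts, rfl⟩
  obtain ⟨t2, ts2', rfl⟩ : ∃ t ts, ts2 = t :: ts := by
    cases ts2 with
    | nil => simp at l2
    | cons t ts => exact ⟨t, ts, rfl⟩
  have te1 := (tbE1 h len D.s hp1 h1).mono (M' := M + 1) (by omega) le_rfl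
  have te2 := (tbE2 h len D.s hp2 h2).mono (M' := M + 1) (by omega) le_rfl
  exact ⟨tz1.mono le_rfl (rat (le_mxN_left _ _)), tz2.mono le_rfl (rat (le_mxN_right _ _)),
    tu1.mono le_rfl (rat (le_mxN_left _ _)), tu2.mono le_rfl (rat (le_mxN_right _ _)),
    Tb_d (Helper70.SH.okM_iff.1 hm).2.2.1 (by omega), Tb_d (Helper70.SH.okM_iff.1 hm).2.2.2 (by omega),
    _, _, te1, te2, tEm_le z.s ss t1 t2 ts1' ts2'⟩

/-- **THE FAR COEFFICIENTS OF A RECORD** at the scale `2 ^ 112` -/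
theorem TlE_112 (hm : okM R D = true) (H0 : LocH)
    (hu : okU z.b r z.s uQ uh ue R.z z.U1.z z.U2.z = true) (hQ : 0 < uQ) (hz : z.ok = true)
    {bT sT ss M0 M : ℕ} {ps1 ps2 : List PF} {ts1 ts2 : List ℕ} (hp1 : Tab bT sT 1000 R.D1 ps1)
    (hp2 : Tab bT sT 1000 R.D2 ps2) (h1 : okTR bT sT 1000 R.D1 ps1 M0 ss ts1 = true)
    (h2 : okTR bT sT 1000 R.D2 ps2 M0 ss ts2 = true) (ok : okTe R z ue M0 M ts1 ts2 = true)
    (hs : Nat.beq z.s 56 = true) {nZ nU nE : ℕ} (eZ : nZ = tZm z M) (eU : nU = tUm z M)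
    (eE : nE = tEm 56 ss ts1 ts2) :
    TlE (cd R h len D.s) M ((nZ : ℝ) / 2 ^ 112) ((nU : ℝ) / 2 ^ 112) 0 ((nE : ℝ) / 2 ^ 112) := by
  have hs : z.s = 56 := Nat.eq_of_beq_eq_true hs
  have k := TlE_rec h len hm H0 hu hQ hz hp1 hp2 h1 h2 ok
  rw [hs] at k
  rw [eZ, eU, eE]
  exact k

end

end Pool.Agent.Helper51.SH
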