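import Pool.Agent.Helper51.SH.LowT
import Pool.Agent.Helper64.SH.FarU

/-!
# Project RC, SHARP, cell engine: the far coefficients of a record (helper20's `TlC`)

`TlC_rec`: all bounds are naturals over `2 ^ (2 s)`, computed from the tables (`tZn`, `tUn`, `tEn`; the fields of the
second multiplier vanish), with one kernel check `okTl`.
-/

set_option autoImplicit false

open MeasureTheory Set Filter Topology

namespace Pool.Agent.Helper51.SH

open Helper49.LT hiding sg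
open Helper49.RC (om)
open Helper49.Cell
open Helper49.Sharp
open Helper95.RC
open Helper95.SH (CD E1 E2 Z1 Z2)
open Helper56.RC (fc)
open Helper87.RC (BM)
open Helper41.SH (IA inv)
open Helper54.RC.Fast Helper76.RC.TrD
open Helper70.SH (cd cd_ok okM CrtD LocH Len)
open _root_.Helper30.SH
open Pool.Agent.Helper20.SH (Tb TlC)
open Pool.Agent.Helper64.SH (okU UR Tb_AP' Tb_d)

theorem bif_tr {a b : Bool} : (bif a then b else false) = true ↔ a = true ∧ b = true := by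
  cases a <;> simp

/-- the tables `z1`, `z2` of `ZD` -/
theorem zz_AP (d : ZD) {P : Par} (hP : P.Reg) (he : P.eta = ((d.e1 : ℂ) + Complex.I * d.e2) / d.D)
    (hl : 1 - P.lam = (d.la : ℝ) / d.D) (h1 : AP d.b d.s d.U1 P.u1) (h2 : AP d.b d.s d.U2 P.u2)
    (h : d.ok = true) : AP d.b d.s d.z1 (zz1 P) ∧ AP d.b d.s d.z2 (zz2 P) := by
  unfold ZD.ok at h
  simp only [bif_tr] at h
  obtain ⟨hr, hh, h⟩ := h
  have hr : d.r ≤ d.b + 1 := Nat.le_of_ble_eq_true hr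
  obtain ⟨q1, q2, q3, q4⟩ := okh_sound hh
  have hs : d.s ≤ d.b := by omega
  unfold ZD.ok1 at h
  simp only [bif_tr] at h
  obtain ⟨l1, c1, c2, c3, c4, h⟩ := h
  have l1 : d.la ≤ d.D := Nat.le_of_ble_eq_true l1
  unfold ZD.ok2 at h
  simp only [bif_tr] at h
  obtain ⟨k1, k2, -⟩ := h
  have hD : 0 < d.D := by
    unfold okc at c1
    simp only [bif_tr] at c1
    exact Nat.le_of_ble_eq_true c1.1
  have hDr : (0 : ℝ) < d.D := by exact_mod_cast hD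
  have hlam : |1 - P.lam| ≤ 1 := by
    rw [hl, abs_of_nonneg (by positivity), div_le_one hDr]
    exact_mod_cast l1
  have u1n : ∀ t, ‖P.u1 t‖ = 1 := fun t => norm_ee _
  have u2n : ∀ t, ‖P.u2 t‖ = 1 := fun t => norm_ee _
  have b1 : AP d.b d.s d.cl (fun _ => 1 - (P.lam : ℂ)) := by
    refine AP_congr (cstP_sound (b := d.b) (s := d.s) (N := 0) (k := 0) (by norm_num) (Int.ofNat d.la) 0 d.D c1)
      fun t => ?_
    have e1 : ((((0 : ℕ) : ℝ)) - ((0 : ℕ) : ℝ)) * t = 0 := by simp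
    rw [e1, ee_zero, mul_one]
    have e2 : (1 - (P.lam : ℂ)) = ((1 - P.lam : ℝ) : ℂ) := by push_cast; rfl
    rw [e2, hl]
    push_cast
    simp
  have b2 : AP d.b d.s d.ca (fun t => 1 / 3 * P.eta * ee (2 * t)) := by
    refine AP_congr (cstP_sound (b := d.b) (s := d.s) (N := 2) (k := 4) (by norm_num) d.e1 d.e2 (Nat.mul 3 d.D) c2)
      fun t => ?_
    rw [mono4, he]
    have e2 : ((Nat.mul 3 d.D : ℕ) : ℂ) = 3 * (d.D : ℂ) := by
      show ((3 * d.D : ℕ) : ℂ) = _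
      push_cast; rfl
    rw [e2]
    have : (d.D : ℂ) ≠ 0 := by exact_mod_cast hD.ne'
    field_simp
  have b3 : AP d.b d.s d.cc (fun t => (starRingEnd ℂ) P.eta * ee (-(2 * t))) := by
    refine AP_congr (cstP_sound (b := d.b) (s := d.s) (N := 2) (k := 0) (by norm_num) d.e1 (-d.e2) d.D c3)
      fun t => ?_
    rw [mono0, he, conj_frac]
  exact ⟨zfP_sound hr hs u1n hP.eta hlam b1 b2 b3 h1 k1, zfP_sound hr hs u2n hP.eta hlam b1 b2 b3 h2 k2⟩

/-! ### the numbers -/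

/-- the maximum -/
def mxN (a b : ℕ) : ℕ := bif Nat.ble a b then b else a

theorem le_mxN_left (a b : ℕ) : a ≤ mxN a b := by
  unfold mxN
  cases hab : Nat.ble a b with
  | true => exact Nat.le_of_ble_eq_true hab
  | false => exact le_rfl

theorem le_mxN_right (a b : ℕ) : b ≤ mxN a b := by
  unfold mxN
  cases hab : Nat.ble a b with
  | true => exact le_rfl
  | false =>
    have h : ¬ a ≤ b := fun h => by
      have := Nat.ble_eq_true_of_le h
      rw [this] at hab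
      exact Bool.noConfusion hab
    exact (not_le.1 h).le

/-- the bound for `E1, E2`, unit `4 ^ (-s)` -/
def tEn (s ss : ℕ) (ts1 ts2 : List ℕ) : ℕ :=
  Nat.succ (Nat.div (Nat.mul (Nat.mul (mxN (ts1.getD 0 0) (ts2.getD 0 0)) (mxN (ts1.getD 0 0) (ts2.getD 0 0)))
    (Nat.pow 4 s)) (Nat.pow 4 ss))

/-- the bound for `u1, u2` beyond `|n| ≥ M` -/
def tUn (z : ZD) (M : ℕ) : ℕ :=
  mxN (Pool.Agent.Helper64.SH.tU z.b z.r (Nat.pred M) z.U1.er z.U1.z)
    (Pool.Agent.Helper64.SH.tU z.b z.r (Nat.pred M) z.U2.er z.U2.z)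

/-- the bound for `Z1, Z2` -/
def tZn (z : ZD) (M lam tE : ℕ) : ℕ :=
  Nat.add (Nat.mul 8 (mxN (Pool.Agent.Helper64.SH.tU z.b z.r (Nat.pred M) z.z1.er z.z1.z)
    (Pool.Agent.Helper64.SH.tU z.b z.r (Nat.pred M) z.z2.er z.z2.z)))
    (Nat.succ (Nat.div (Nat.mul (Nat.mul 8 (Nat.mul lam lam)) tE) 10000000000))

/-- **THE CHECK** -/
def okTl (R : Rec) (z : ZD) (ue M0 M : ℕ) (ts1 ts2 : List ℕ) : Bool :=
  bif Nat.beq z.U1.er ue then
  bif Nat.beq z.U2.er ue then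
  bif decide (z.e1 = R.e1) then
  bif decide (z.e2 = R.e2) then
  bif Nat.beq z.D 100000 then
  bif decide ((z.la : ℤ) = 100000 - R.lam) then
  bif Nat.ble (Nat.add M0 2) M then
  bif Nat.ble M z.U1.z.N then
  bif Nat.ble M z.U2.z.N then
  bif Nat.ble M z.z1.z.N then
  bif Nat.ble M z.z2.z.N then
  bif Nat.ble (Nat.succ (Helper87.SH.Mof R.f1)) M then
  bif Nat.ble (Nat.succ (Helper87.SH.Mof R.f2)) M then
  bif Nat.ble 1 ts1.length then Nat.ble 1 ts2.length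
  else false else false else false else false else false else false else false else false else false else false
  else false else false else false else false

theorem tEn_le (s ss t : ℕ) {ts1 ts2 : List ℕ} (ht : t ≤ mxN (ts1.getD 0 0) (ts2.getD 0 0)) :
    ((t : ℝ) / 2 ^ ss) ^ 2 ≤ ((tEn s ss ts1 ts2 : ℕ) : ℝ) / 2 ^ (2 * s) := by
  set m := mxN (ts1.getD 0 0) (ts2.getD 0 0) with hm
  have e : tEn s ss ts1 ts2 = m * m * 4 ^ s / 4 ^ ss + 1 := rfl
  have h1 : m * m * 4 ^ s < (m * m * 4 ^ s / 4 ^ ss + 1) * 4 ^ ss := by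
    have := Nat.lt_div_mul_add (a := m * m * 4 ^ s) (b := 4 ^ ss) (by positivity)
    calc m * m * 4 ^ s < m * m * 4 ^ s / 4 ^ ss * 4 ^ ss + 4 ^ ss := this
      _ = _ := by ring
  have h2 : (m : ℝ) * m * 4 ^ s ≤ ((m * m * 4 ^ s / 4 ^ ss + 1 : ℕ) : ℝ) * 4 ^ ss := by exact_mod_cast h1.le
  have h3 : (t : ℝ) ≤ m := by exact_mod_cast ht
  have e4 : ((2 : ℝ) ^ ss) ^ 2 = 4 ^ ss := by rw [← pow_mul, mul_comm, pow_mul]; norm_num
  have e5 : (2 : ℝ) ^ (2 * s) = 4 ^ s := by rw [pow_mul]; norm_num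
  have h4 : (t : ℝ) ^ 2 ≤ (m : ℝ) * m := by nlinarith [Nat.cast_nonneg (α := ℝ) t, Nat.cast_nonneg (α := ℝ) m]
  rw [e, div_pow, e4, e5, div_le_div_iff₀ (by positivity) (by positivity)]
  refine le_trans (mul_le_mul_of_nonneg_right h4 (by positivity)) h2

/-- one field `Z` -/
theorem Z_tb {f g h : ℤ → ℂ} {M s : ℕ} {lam : ℤ} {x y tE : ℕ} (e : ∀ n, 1 / 2 * f n = g n + (((lam : ℝ) / 100000 : ℝ) : ℂ) * h n)
    (hg : Tb M g (((x : ℕ) : ℝ) / 2 ^ (2 * s))) (hh : Tb M h ((tE : ℝ) / 2 ^ (2 * s)))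
    (hy : 8 * x + (8 * (lam.natAbs * lam.natAbs) * tE / 10000000000 + 1) ≤ y) :
    Tb M f ((y : ℝ) / 2 ^ (2 * s)) := by
  have h1 := (hg.smul 2).add (hh.smul (2 * (((lam : ℝ) / 100000 : ℝ) : ℂ)))
  have e1 : (fun n => (2 : ℂ) * g n + (2 * (((lam : ℝ) / 100000 : ℝ) : ℂ)) * h n) = f := by
    funext n
    linear_combination (-2 : ℂ) * e n
  rw [e1] at h1
  refine h1.mono le_rfl ?_
  have n1 : ‖(2 : ℂ)‖ ^ 2 = 4 := by norm_num
  have n2 : ‖(2 * (((lam : ℝ) / 100000 : ℝ) : ℂ))‖ ^ 2 = 4 * (((lam.natAbs : ℕ) : ℝ) ^ 2 / 10000000000) := by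
    rw [norm_mul, Complex.norm_real, Real.norm_eq_abs, abs_div, mul_pow, div_pow, n1]
    have : ((lam.natAbs : ℕ) : ℝ) = |(lam : ℝ)| := by rw [Nat.cast_natAbs]; push_cast; rfl
    rw [this]
    norm_num
  rw [n1, n2]
  have h3 : 8 * (lam.natAbs * lam.natAbs) * tE < (8 * (lam.natAbs * lam.natAbs) * tE / 10000000000 + 1) * 10000000000 := by
    omega
  have h4 : (8 * ((lam.natAbs : ℝ) * lam.natAbs) * tE : ℝ) ≤
      ((8 * (lam.natAbs * lam.natAbs) * tE / 10000000000 + 1 : ℕ) : ℝ) * 10000000000 := by exact_mod_cast h3.le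
  have h5 : (8 * (x : ℝ) + ((8 * (lam.natAbs * lam.natAbs) * tE / 10000000000 + 1 : ℕ) : ℝ)) ≤ y := by exact_mod_cast hy
  have e6 : 2 * (4 * ((x : ℝ) / 2 ^ (2 * s)) + 4 * (((lam.natAbs : ℕ) : ℝ) ^ 2 / 10000000000) * ((tE : ℝ) / 2 ^ (2 * s))) =
      (8 * (x : ℝ) + (8 * ((lam.natAbs : ℝ) * lam.natAbs) * tE) / 10000000000) / 2 ^ (2 * s) := by
    field_simp
    ring
  rw [e6]
  refine div_le_div_of_nonneg_right ?_ (by positivity)
  have h7 : (8 * ((lam.natAbs : ℝ) * lam.natAbs) * tE : ℝ) / 10000000000 ≤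
      ((8 * (lam.natAbs * lam.natAbs) * tE / 10000000000 + 1 : ℕ) : ℝ) := by
    rw [div_le_iff₀ (by norm_num)]
    exact h4
  linarith

section

variable {R : Rec} {C : Crt} (h : R.ok C = true) {K0 : ℕ} (len : Len R K0) {D : CrtD} {r uQ uh ue : ℕ} {z : ZD}

/-- **THE FAR COEFFICIENTS OF A RECORD** -/
theorem TlC_rec (hm : okM R D = true) (H0 : LocH)
    (hu : okU z.b r z.s uQ uh ue R.z z.U1.z z.U2.z = true) (hQ : 0 < uQ) (hz : z.ok = true)
    {bT sT ss M0 M : ℕ} {ps1 ps2 : List PF} {ts1 ts2 : List ℕ} (hp1 : Tab bT sT 1000 R.D1 ps1)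
    (hp2 : Tab bT sT 1000 R.D2 ps2) (h1 : okTR bT sT 1000 R.D1 ps1 M0 ss ts1 = true)
    (h2 : okTR bT sT 1000 R.D2 ps2 M0 ss ts2 = true) (ok : okTl R z ue M0 M ts1 ts2 = true) :
    TlC (cd R h len D.s) M (((tZn z M R.lam.natAbs (tEn z.s ss ts1 ts2) : ℕ) : ℝ) / 2 ^ (2 * z.s))
      (((tUn z M : ℕ) : ℝ) / 2 ^ (2 * z.s)) 0 (((tEn z.s ss ts1 ts2 : ℕ) : ℝ) / 2 ^ (2 * z.s)) := by
  unfold okTl at ok
  simp only [bif_tr] at ok
  obtain ⟨o1, o2, o3, o4, o5, o6, o7, o8, o9, o10, o11, o12, o13, o14, o15⟩ := ok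
  have hU1 : z.U1.er = ue := Nat.eq_of_beq_eq_true o1
  have hU2 : z.U2.er = ue := Nat.eq_of_beq_eq_true o2
  have he1 : z.e1 = R.e1 := of_decide_eq_true o3
  have he2 : z.e2 = R.e2 := of_decide_eq_true o4
  have hD : z.D = 100000 := Nat.eq_of_beq_eq_true o5
  have hla : (z.la : ℤ) = 100000 - R.lam := of_decide_eq_true o6
  have hM : M0 + 2 ≤ M := Nat.le_of_ble_eq_true o7
  have m1 : M ≤ z.U1.z.N := Nat.le_of_ble_eq_true o8
  have m2 : M ≤ z.U2.z.N := Nat.le_of_ble_eq_true o9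
  have m3 : M ≤ z.z1.z.N := Nat.le_of_ble_eq_true o10
  have m4 : M ≤ z.z2.z.N := Nat.le_of_ble_eq_true o11
  have m5 : Helper87.SH.Mof R.f1 < M := Nat.le_of_ble_eq_true o12
  have m6 : Helper87.SH.Mof R.f2 < M := Nat.le_of_ble_eq_true o13
  have l1 : 1 ≤ ts1.length := Nat.le_of_ble_eq_true o14
  have l2 : 1 ≤ ts2.length := Nat.le_of_ble_eq_true o15
  have kk := cd_ok h len hm H0
  have hreg : R.par.Reg := kk.st.reg
  obtain ⟨u1, u2⟩ := UR h hQ hu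
  have hr : z.r ≤ z.b + 1 := by
    have := hz
    unfold ZD.ok at this
    rw [bif_tr] at this
    exact Nat.le_of_ble_eq_true this.1
  have w1 : AP z.b z.s z.U1 R.par.u1 := by
    have e : z.U1 = ⟨z.U1.z, ue⟩ := by rw [← hU1]
    rw [e]
    exact u1
  have w2 : AP z.b z.s z.U2 R.par.u2 := by
    have e : z.U2 = ⟨z.U2.z, ue⟩ := by rw [← hU2]
    rw [e]
    exact u2
  have heta : R.par.eta = ((z.e1 : ℂ) + Complex.I * z.e2) / z.D := by
    rw [Helper70.SH.par_eta, he1, he2, hD]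
    push_cast
    rfl
  have hlam : 1 - R.par.lam = (z.la : ℝ) / z.D := by
    have h1 : (z.la : ℝ) = 100000 - R.lam := by exact_mod_cast hla
    rw [Helper70.SH.par_lam, hD, h1]
    push_cast
    ring
  obtain ⟨zz_1, zz_2⟩ := zz_AP z hreg heta hlam w1 w2 hz
  have hM1 : Nat.pred M + 1 = M := Nat.succ_pred_eq_of_pos (by omega)
  have pM : Nat.pred M ≤ M := Nat.pred_le M
  have rat : ∀ {x y : ℕ}, x ≤ y → (x : ℝ) / 2 ^ (2 * z.s) ≤ (y : ℝ) / 2 ^ (2 * z.s) := fun hxy => by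
    refine div_le_div_of_nonneg_right ?_ (by positivity)
    exact_mod_cast hxy
  -- `u`
  have tu1 := Tb_AP' hr (Helper49.Sharp.u1_bm hreg) (v := z.U1.z) (e := z.U1.er) w1 (pM.trans m1)
  have tu2 := Tb_AP' hr (Helper49.Sharp.u2_bm hreg) (v := z.U2.z) (e := z.U2.er) w2 (pM.trans m2)
  rw [hM1] at tu1 tu2
  -- `z`
  obtain ⟨C1, b1⟩ := zz1_bm hreg (rfl : R.par.a0 = fun _ => 0)
  obtain ⟨C2, b2⟩ := zz2_bm hreg (rfl : R.par.a0 = fun _ => 0)
  have tz1 := Tb_AP' hr b1 (v := z.z1.z) (e := z.z1.er) zz_1 (pM.trans m3)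
  have tz2 := Tb_AP' hr b2 (v := z.z2.z) (e := z.z2.er) zz_2 (pM.trans m4)
  rw [hM1] at tz1 tz2
  -- `E`
  obtain ⟨t1, ts1', rfl⟩ : ∃ t ts, ts1 = t :: ts := by
    cases ts1 with
    | nil => simp at l1
    | cons t ts => exact ⟨t, ts, rfl⟩
  obtain ⟨t2, ts2', rfl⟩ : ∃ t ts, ts2 = t :: ts := by
    cases ts2 with
    | nil => simp at l2
    | cons t ts => exact ⟨t, ts, rfl⟩
  have te1 := (tbE1 h len D.s hp1 h1).mono hM (tEn_le z.s ss t1 (ts1 := t1 :: ts1') (ts2 := t2 :: ts2')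
    (le_mxN_left _ _))
  have te2 := (tbE2 h len D.s hp2 h2).mono hM (tEn_le z.s ss t2 (ts1 := t1 :: ts1') (ts2 := t2 :: ts2')
    (le_mxN_right _ _))
  have k := Rec.ok_sound h
  refine ⟨?_, ?_, tu1.mono le_rfl (rat (le_mxN_left _ _)), tu2.mono le_rfl (rat (le_mxN_right _ _)),
    Tb_d (Helper70.SH.okM_iff.1 hm).2.2.1 m5, Tb_d (Helper70.SH.okM_iff.1 hm).2.2.2 m6, te1, te2⟩
  · refine Z_tb (lam := R.lam) (fun n => ?_) tz1 te1 (Nat.add_le_add_right (Nat.mul_le_mul_left 8 (le_mxN_left _ _)) _)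
    refine (fc_Z1_half hreg rfl k.i1 rfl n).trans ?_
    rw [map_mul, ← ee_neg, neg_neg]
    show _ = fc (zz1 R.par) n + (((R.lam : ℝ) / 100000 : ℝ) : ℂ) * (ee (((n + 1 : ℤ) : ℝ) * (Real.pi / 3)) *
      (starRingEnd ℂ) (Helper95.SH.Rn R.cb.T1 R.cb.T1' (n + 1) 1))
    rw [Int.cast_add, Int.cast_one]
    rfl
  · refine Z_tb (lam := R.lam) (fun n => ?_) tz2 te2 (Nat.add_le_add_right (Nat.mul_le_mul_left 8 (le_mxN_right _ _)) _)
    refine (fc_Z2_half hreg rfl k.i2 rfl n).trans ?_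
    rw [map_mul, ← ee_neg, neg_neg]
    show _ = fc (zz2 R.par) n + (((R.lam : ℝ) / 100000 : ℝ) : ℂ) * (ee (((n + 1 : ℤ) : ℝ) * (2 * Real.pi / 3)) *
      (starRingEnd ℂ) (Helper95.SH.Rn R.cb.T2 R.cb.T2' (n + 1) 1))
    rw [Int.cast_add, Int.cast_one]
    rfl

end

end Pool.Agent.Helper51.SH
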